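import Pool.Agent.X21.ET.Loc

set_option autoImplicit false

/-!
Counting quaternions of a linked family which is not linked on an affine plane.
-/

namespace Pool.Agent.X21.ET

open Pool.Agent.W622.ETG Module Pool.Agent.TH188.ETP

section
variable {V : Type} [AddCommGroup V] [Module (ZMod 2) V] {e : V}

/-- the quaternions of a family: the functions `ω ↦ ω(a,b)` -/
def qs (A : Fam V) : Set (A → ZMod 2) :=
  Set.range (fun ab : V × V => fun ω : A => ω.1 ab.1 ab.2)

/-- `b ↦ (ω ↦ ω(p,b))` -/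
def evp (A : Fam V) (p : V) : V →ₗ[ZMod 2] (A → ZMod 2) where
  toFun b := fun ω => ω.1 p b
  map_add' := by intro b c; funext ω; exact map_add _ _ _
  map_smul' := by intro r b; funext ω; exact map_smul _ _ _

/-- the quaternions with slot `p` -/
def QQ (A : Fam V) (p : V) : Submodule (ZMod 2) (A → ZMod 2) := LinearMap.range (evp A p)

theorem QQ_sub (A : Fam V) (p : V) : ((QQ A p : Submodule (ZMod 2) (A → ZMod 2)) :
    Set (A → ZMod 2)) ⊆ qs A := by
  rintro _ ⟨b, rfl⟩
  exact ⟨(p, b), rfl⟩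

theorem qs_finite [Finite V] (A : Fam V) : (qs A).Finite := Set.finite_range _

theorem ncard_qs_mono [Finite V] {A B : Fam V} (h : B ≤ A) : (qs B).ncard ≤ (qs A).ncard := by
  have h1 : qs B = (fun t : A → ZMod 2 => fun ω : B => t ⟨ω.1, h ω.2⟩) '' qs A := by
    ext s
    constructor
    · rintro ⟨ab, rfl⟩
      exact ⟨_, ⟨ab, rfl⟩, rfl⟩
    · rintro ⟨_, ⟨ab, rfl⟩, rfl⟩
      exact ⟨ab, rfl⟩
  rw [h1]
  exact Set.ncard_image_le (qs_finite A)

theorem card_mul_le {E M : Type*} [AddCommGroup E] [Module (ZMod 2) E] [AddCommGroup M]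
    [Module (ZMod 2) M] (Qa Qp : Submodule (ZMod 2) E) (hf : Finite Qa) (L : E →ₗ[ZMod 2] M)
    (h0 : ∀ t ∈ Qp, L t = 0) (hs : ∀ m, ∃ t ∈ Qa, L t = m) :
    Nat.card M * Nat.card ↥(Qa ⊓ Qp) ≤ Nat.card Qa := by
  choose s hs1 hs2 using hs
  rw [← Nat.card_prod]
  refine Nat.card_le_card_of_injective
    (fun x : M × ↥(Qa ⊓ Qp) => (⟨s x.1 + x.2, Qa.add_mem (hs1 _) x.2.2.1⟩ : Qa)) ?_
  rintro ⟨m, t, ht⟩ ⟨m', t', ht'⟩ h
  have h1 : s m + t = s m' + t' := congrArg Subtype.val h
  have h2 := congrArg L h1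
  rw [map_add, map_add, hs2, hs2, h0 t ht.2, h0 t' ht'.2, add_zero, add_zero] at h2
  subst h2
  have h3 := add_left_cancel h1
  subst h3
  rfl

theorem surj2 {α β : Dl V} (h1 : α ≠ 0) (h2 : β ≠ 0) (h3 : α ≠ β) (u v : ZMod 2) :
    ∃ b, α b = u ∧ β b = v := by
  have hr : LinearMap.range (α.prod β) = ⊤ := by
    rw [eq_top_iff]
    rintro m -
    by_contra hm
    obtain ⟨f, hf1, hf2⟩ := Submodule.exists_le_ker_of_notMem hm
    set c1 := f (1, 0) with hc1
    set c2 := f (0, 1) with hc2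
    have hfv : ∀ x y : ZMod 2, f (x, y) = c1 * x + c2 * y := by
      intro x y
      have e1 : ((x, y) : ZMod 2 × ZMod 2) = x • ((1, 0) : ZMod 2 × ZMod 2) + y • (0, 1) := by
        ext <;> simp
      rw [e1, map_add, map_smul, map_smul, ← hc1, ← hc2, smul_eq_mul, smul_eq_mul, mul_comm x,
        mul_comm y]
    have hz : ∀ b, c1 * α b + c2 * β b = 0 := by
      intro b
      rw [← hfv]
      exact hf2 ⟨b, rfl⟩
    rcases z01 c1 with d1 | d1 <;> rcases z01 c2 with d2 | d2 <;> rw [d1, d2] at hz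
    · apply hf1
      obtain ⟨x, y⟩ := m
      rw [hfv, d1, d2]; ring
    · exact h2 (LinearMap.ext fun b => by simpa using hz b)
    · exact h1 (LinearMap.ext fun b => by simpa using hz b)
    · refine h3 (LinearMap.ext fun b => ?_)
      have := hz b
      rw [one_mul, one_mul] at this
      exact CharTwo.add_eq_zero.1 this
  have : ((u, v) : ZMod 2 × ZMod 2) ∈ LinearMap.range (α.prod β) := by rw [hr]; trivial
  obtain ⟨b, hb⟩ := this
  exact ⟨b, congrArg Prod.fst hb, congrArg Prod.snd hb⟩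

theorem surj3 {α β γ : Dl V} (h1 : α ≠ 0) (h2 : β ≠ 0) (h3 : γ ≠ 0) (h4 : α ≠ β) (h5 : α ≠ γ)
    (h6 : β ≠ γ) (h7 : α ≠ β + γ) (u v w : ZMod 2) : ∃ b, α b = u ∧ β b = v ∧ γ b = w := by
  have hr : LinearMap.range (α.prod (β.prod γ)) = ⊤ := by
    rw [eq_top_iff]
    rintro m -
    by_contra hm
    obtain ⟨f, hf1, hf2⟩ := Submodule.exists_le_ker_of_notMem hm
    set c1 := f (1, 0, 0) with hc1
    set c2 := f (0, 1, 0) with hc2
    set c3 := f (0, 0, 1) with hc3
    have hfv : ∀ x y z : ZMod 2, f (x, y, z) = c1 * x + c2 * y + c3 * z := by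
      intro x y z
      have e1 : ((x, y, z) : ZMod 2 × ZMod 2 × ZMod 2) =
          x • ((1, 0, 0) : ZMod 2 × ZMod 2 × ZMod 2) + y • (0, 1, 0) + z • (0, 0, 1) := by
        ext <;> simp
      rw [e1, map_add, map_add, map_smul, map_smul, map_smul, ← hc1, ← hc2, ← hc3, smul_eq_mul,
        smul_eq_mul, smul_eq_mul, mul_comm x, mul_comm y, mul_comm z]
    have hz : ∀ b, c1 * α b + c2 * β b + c3 * γ b = 0 := by
      intro b
      rw [← hfv]
      exact hf2 ⟨b, rfl⟩
    rcases z01 c1 with d1 | d1 <;> rcases z01 c2 with d2 | d2 <;> rcases z01 c3 with d3 | d3 <;>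
      rw [d1, d2, d3] at hz
    · apply hf1
      obtain ⟨x, y, z⟩ := m
      rw [hfv, d1, d2, d3]; ring
    · exact h3 (LinearMap.ext fun b => by simpa using hz b)
    · exact h2 (LinearMap.ext fun b => by simpa using hz b)
    · refine h6 (LinearMap.ext fun b => ?_)
      have := hz b
      simp only [zero_mul, one_mul, zero_add] at this
      exact CharTwo.add_eq_zero.1 this
    · exact h1 (LinearMap.ext fun b => by simpa using hz b)
    · refine h5 (LinearMap.ext fun b => ?_)
      have := hz b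
      simp only [zero_mul, one_mul, add_zero] at this
      exact CharTwo.add_eq_zero.1 this
    · refine h4 (LinearMap.ext fun b => ?_)
      have := hz b
      simp only [zero_mul, one_mul, add_zero] at this
      exact CharTwo.add_eq_zero.1 this
    · refine h7 (LinearMap.ext fun b => ?_)
      have := hz b
      simp only [one_mul] at this
      rw [add_assoc] at this
      exact CharTwo.add_eq_zero.1 this
  have : ((u, v, w) : ZMod 2 × ZMod 2 × ZMod 2) ∈ LinearMap.range (α.prod (β.prod γ)) := by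
    rw [hr]; trivial
  obtain ⟨b, hb⟩ := this
  exact ⟨b, congrArg Prod.fst hb, congrArg (fun t => t.2.1) hb, congrArg (fun t => t.2.2) hb⟩

theorem QQ_fin [Finite V] (A : Fam V) (p : V) : Finite (QQ A p) :=
  Finite.of_surjective (evp A p).rangeRestrict (LinearMap.surjective_rangeRestrict _)

theorem card_of_notI1 [Finite V] {A : Fam V} {p a : V} (h : ¬ I1 A p a) :
    2 * Nat.card ↥(QQ A a ⊓ QQ A p) ≤ Nat.card (QQ A a) := by
  unfold I1 at h
  push Not at h
  obtain ⟨ω, hω, h1, h2⟩ := h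
  have := card_mul_le (M := ZMod 2) (QQ A a) (QQ A p) (QQ_fin A a)
    (LinearMap.proj (⟨ω, hω⟩ : A)) (by
      rintro _ ⟨b, rfl⟩
      show ω p b = 0
      rw [h1]; rfl) (by
      intro m
      obtain ⟨b, hb⟩ : ∃ b, ω a b = 1 := by
        by_contra hcon
        push Not at hcon
        apply h2
        ext b
        rcases z01 (ω a b) with h | h
        · exact h
        · exact absurd h (hcon b)
      exact ⟨evp A a (m • b), ⟨_, rfl⟩, by
        show ω a (m • b) = m
        rw [map_smul, hb, smul_eq_mul, mul_one]⟩)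
  rwa [Nat.card_zmod] at this

theorem card_of_notI2 [Finite V] {A : Fam V} {p a : V} (h : ¬ I2 A p a) :
    4 * Nat.card ↥(QQ A a ⊓ QQ A p) ≤ Nat.card (QQ A a) := by
  unfold I2 at h
  push Not at h
  obtain ⟨ω₁, m1, ω₂, m2, k1, k2, n1, n2, n3⟩ := h
  have := card_mul_le (M := ZMod 2 × ZMod 2) (QQ A a) (QQ A p) (QQ_fin A a)
    ((LinearMap.proj (⟨ω₁, m1⟩ : A)).prod (LinearMap.proj (⟨ω₂, m2⟩ : A))) (by
      rintro _ ⟨b, rfl⟩
      show (ω₁ p b, ω₂ p b) = 0
      rw [k1, k2]; rfl) (by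
      rintro ⟨u, v⟩
      obtain ⟨b, hb1, hb2⟩ := surj2 n1 n2 n3 u v
      exact ⟨evp A a b, ⟨_, rfl⟩, Prod.ext hb1 hb2⟩)
  rw [Nat.card_prod, Nat.card_zmod] at this
  exact this

theorem card_of_notR2 [Finite V] {A : Fam V} {p : V} (h : ¬ R2 A p) : 8 ≤ Nat.card (QQ A p) := by
  unfold R2 at h
  push Not at h
  obtain ⟨ω₁, m1, ω₂, m2, ω₃, m3, n1, n2, n3, n4, n5, n6, n7⟩ := h
  have := card_mul_le (M := ZMod 2 × ZMod 2 × ZMod 2) (QQ A p) ⊥ (QQ_fin A p)
    ((LinearMap.proj (⟨ω₁, m1⟩ : A)).prod ((LinearMap.proj (⟨ω₂, m2⟩ : A)).prod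
      (LinearMap.proj (⟨ω₃, m3⟩ : A)))) (by
      intro t ht
      rw [(Submodule.mem_bot _).1 ht]
      exact map_zero _) (by
      rintro ⟨u, v, w⟩
      obtain ⟨b, hb1, hb2, hb3⟩ := surj3 n1 n2 n3 n4 n5 n6 n7 u v w
      exact ⟨evp A p b, ⟨_, rfl⟩, Prod.ext hb1 (Prod.ext hb2 hb3)⟩)
  rw [Nat.card_prod, Nat.card_prod, Nat.card_zmod, inf_bot_eq, Nat.card_unique] at this
  exact this

/-- a functional which does not vanish on `⟨x,y,z⟩` is nonzero at some `h` with a large group of
values -/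
theorem exists_big1 {A : Fam V} {x y z : V}
    (hno : ∀ x' y' z' : V, Submodule.span (ZMod 2) {x', y', z'} = Submodule.span (ZMod 2) {x, y, z} →
      ¬ Crit A x' y' z') (l : Dl V) (hl : l x ≠ 0 ∨ l y ≠ 0 ∨ l z ≠ 0) :
    ∃ h ∈ Submodule.span (ZMod 2) {x, y, z}, l h = 1 ∧ ¬ R2 A h := by
  set W := Submodule.span (ZMod 2) {x, y, z} with hW
  have hx : x ∈ W := Submodule.subset_span (by simp)
  have hy : y ∈ W := Submodule.subset_span (by simp)
  have hz : z ∈ W := Submodule.subset_span (by simp)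
  obtain ⟨u, hu, hlu⟩ : ∃ u, (u = x ∨ u = y ∨ u = z) ∧ l u = 1 := by
    rcases hl with h | h | h
    · exact ⟨x, Or.inl rfl, z_ne h⟩
    · exact ⟨y, Or.inr (Or.inl rfl), z_ne h⟩
    · exact ⟨z, Or.inr (Or.inr rfl), z_ne h⟩
  have huW : u ∈ W := by
    rcases hu with rfl | rfl | rfl <;> assumption
  let g : V → V := fun v => v + (1 + l v) • u
  have hg : ∀ v, l (g v) = 1 := by
    intro v
    show l (v + (1 + l v) • u) = 1
    rw [map_add, map_smul, hlu, smul_eq_mul, mul_one]
    have := zadd (l v)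
    linear_combination this
  have hgu : g u = u := by
    show u + (1 + l u) • u = u
    rw [hlu, zadd, zero_smul, add_zero]
  have hgW : ∀ v ∈ W, g v ∈ W := fun v hv => W.add_mem hv (W.smul_mem _ huW)
  have hs : Submodule.span (ZMod 2) {g x, g y, g z} = W := by
    apply le_antisymm
    · rw [Submodule.span_le]
      rintro v (rfl | rfl | rfl)
      · exact hgW _ hx
      · exact hgW _ hy
      · exact hgW _ hz
    · have hu' : u ∈ Submodule.span (ZMod 2) {g x, g y, g z} := by
        rcases hu with h | h | h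
        · rw [← h, hgu]; exact Submodule.subset_span (by simp)
        · rw [← h, hgu]; exact Submodule.subset_span (by simp)
        · rw [← h, hgu]; exact Submodule.subset_span (by simp)
      have hv : ∀ v, g v ∈ Submodule.span (ZMod 2) {g x, g y, g z} →
          v ∈ Submodule.span (ZMod 2) {g x, g y, g z} := by
        intro v hv
        have e1 : v = g v + (1 + l v) • u := by
          show v = v + (1 + l v) • u + (1 + l v) • u
          rw [add_assoc, vadd, add_zero]
        rw [e1]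
        exact Submodule.add_mem _ hv (Submodule.smul_mem _ _ hu')
      rw [hW, Submodule.span_le]
      rintro v (rfl | rfl | rfl)
      · exact hv _ (Submodule.subset_span (by simp))
      · exact hv _ (Submodule.subset_span (by simp))
      · exact hv _ (Submodule.subset_span (by simp))
  have h1 := hno _ _ _ hs
  by_contra hcon
  push Not at hcon
  apply h1
  refine Or.inl ⟨hcon _ (hgW _ hx) (hg _), hcon _ (hgW _ hy) (hg _), hcon _ (hgW _ hz) (hg _),
    hcon _ (W.add_mem (W.add_mem (hgW _ hx) (hgW _ hy)) (hgW _ hz)) ?_⟩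
  rw [map_add, map_add, hg, hg, hg]
  decide

/-- dependent triples -/
def Dep (x y z : V) : Prop := x = 0 ∨ y = 0 ∨ z = 0 ∨ x + y + z = 0 ∨ x = y ∨ x = z ∨ y = z

theorem dep_of_pair {x y z a b : V} (hx : x ∈ Submodule.span (ZMod 2) {a, b})
    (hy : y ∈ Submodule.span (ZMod 2) {a, b}) (hz : z ∈ Submodule.span (ZMod 2) {a, b}) :
    Dep x y z := by
  have h1 : a + b + (a + b) = 0 := vadd _
  have h2 : b + a + (a + b) = 0 := by rw [add_comm b]; exact vadd _
  have h3 : a + (a + b) + b = 0 := by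
    have : a + (a + b) + b = (a + a) + (b + b) := by abel
    rw [this, vadd, vadd, add_zero]
  have h4 : b + (a + b) + a = 0 := by
    have : b + (a + b) + a = (a + a) + (b + b) := by abel
    rw [this, vadd, vadd, add_zero]
  have h5 : a + b + a + b = 0 := by
    have : a + b + a + b = (a + a) + (b + b) := by abel
    rw [this, vadd, vadd, add_zero]
  have h6 : a + b + b + a = 0 := by
    have : a + b + b + a = (a + a) + (b + b) := by abel
    rw [this, vadd, vadd, add_zero]
  unfold Dep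
  rcases span_pair_mem.1 hx with rfl | rfl | rfl | rfl <;>
    rcases span_pair_mem.1 hy with rfl | rfl | rfl | rfl <;>
      rcases span_pair_mem.1 hz with rfl | rfl | rfl | rfl <;> simp [h1, h2, h3, h4, h5, h6]

omit [AddCommGroup V] [Module (ZMod 2) V] in
theorem range3 (a b c : V) : Set.range ![a, b, c] = {a, b, c} := by
  ext v
  constructor
  · rintro ⟨i, rfl⟩
    fin_cases i <;> simp
  · rintro (rfl | rfl | rfl)
    · exact ⟨0, rfl⟩
    · exact ⟨1, rfl⟩
    · exact ⟨2, rfl⟩

/-- three independent elements with large groups of values -/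
theorem exists_big3 [Finite V] {A : Fam V} {x y z : V} (hxyz : ¬ Dep x y z)
    (hno : ∀ x' y' z' : V, Submodule.span (ZMod 2) {x', y', z'} = Submodule.span (ZMod 2) {x, y, z} →
      ¬ Crit A x' y' z') :
    ∃ a b c : V, Submodule.span (ZMod 2) {a, b, c} = Submodule.span (ZMod 2) {x, y, z} ∧
      ¬ Dep a b c ∧ ¬ R2 A a ∧ ¬ R2 A b ∧ ¬ R2 A c := by
  set W := Submodule.span (ZMod 2) {x, y, z} with hW
  -- functionals killing two given elements
  have hex : ∀ a b : V, ∃ l : Dl V, l a = 0 ∧ l b = 0 ∧ (l x ≠ 0 ∨ l y ≠ 0 ∨ l z ≠ 0) := by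
    intro a b
    by_contra hcon
    push Not at hcon
    apply hxyz
    have hk : ∀ v, (∀ l : Dl V, l a = 0 → l b = 0 → l v = 0) →
        v ∈ Submodule.span (ZMod 2) {a, b} := by
      intro v hv
      by_contra hc
      obtain ⟨l, h1, h2⟩ := Submodule.exists_le_ker_of_notMem hc
      exact h1 (hv l (h2 (Submodule.subset_span (by simp))) (h2 (Submodule.subset_span (by simp))))
    exact dep_of_pair (hk x fun l h1 h2 => (hcon l h1 h2).1)
      (hk y fun l h1 h2 => (hcon l h1 h2).2.1) (hk z fun l h1 h2 => (hcon l h1 h2).2.2)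
  obtain ⟨l1, -, -, h1⟩ := hex 0 0
  obtain ⟨a, haW, ha1, haR⟩ := exists_big1 hno l1 h1
  obtain ⟨l2, k2, -, h2⟩ := hex a 0
  obtain ⟨b, hbW, hb1, hbR⟩ := exists_big1 hno l2 h2
  obtain ⟨l3, k3, k3', h3⟩ := hex a b
  obtain ⟨c, hcW, hc1, hcR⟩ := exists_big1 hno l3 h3
  have hli : LinearIndependent (ZMod 2) ![a, b, c] := by
    rw [Fintype.linearIndependent_iff]
    intro g hg
    rw [Fin.sum_univ_three] at hg
    have hg' : g 0 • a + g 1 • b + g 2 • c = 0 := hg
    have t2 : g 2 = 0 := by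
      have := congrArg l3 hg'
      rw [map_add, map_add, map_smul, map_smul, map_smul, k3, k3', hc1, map_zero] at this
      simpa using this
    rw [t2, zero_smul, add_zero] at hg'
    have t1 : g 1 = 0 := by
      have := congrArg l2 hg'
      rw [map_add, map_smul, map_smul, k2, hb1, map_zero] at this
      simpa using this
    rw [t1, zero_smul, add_zero] at hg'
    have t0 : g 0 = 0 := by
      have := congrArg l1 hg'
      rw [map_smul, ha1, map_zero] at this
      simpa using this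
    intro i
    fin_cases i
    · exact t0
    · exact t1
    · exact t2
  have hfd : FiniteDimensional (ZMod 2) V := Module.Finite.of_finite
  have hr1 : finrank (ZMod 2) (Submodule.span (ZMod 2) {a, b, c}) = 3 := by
    have := finrank_span_eq_card hli
    rw [range3] at this
    simpa using this
  have hr2 : finrank (ZMod 2) W ≤ 3 := by
    have := finrank_range_le_card (R := ZMod 2) ![x, y, z]
    rw [Set.finrank, range3] at this
    simpa using this
  refine ⟨a, b, c, ?_, ?_, haR, hbR, hcR⟩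
  · apply Submodule.eq_of_le_of_finrank_le
    · rw [Submodule.span_le]
      rintro v (rfl | rfl | rfl) <;> assumption
    · rw [hr1]; exact hr2
  · intro hd
    have key : ∀ r s t : ZMod 2, r • a + s • b + t • c = 0 → r = 0 ∧ s = 0 ∧ t = 0 := by
      intro r s t h
      have := (Fintype.linearIndependent_iff.1 hli) ![r, s, t] (by
        rw [Fin.sum_univ_three]; exact h)
      exact ⟨this 0, this 1, this 2⟩
    rcases hd with h | h | h | h | h | h | h
    · exact one_ne_zero (key 1 0 0 (by simp [h])).1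
    · exact one_ne_zero (key 0 1 0 (by simp [h])).2.1
    · exact one_ne_zero (key 0 0 1 (by simp [h])).2.2
    · exact one_ne_zero (key 1 1 1 (by simpa using h)).1
    · exact one_ne_zero (key 1 1 0 (by rw [h]; simp [vadd])).1
    · exact one_ne_zero (key 1 0 1 (by rw [h]; simp [vadd])).1
    · exact one_ne_zero (key 0 1 1 (by rw [h]; simp [vadd])).2.1

theorem pow_card {E : Type*} [AddCommGroup E] [Module (ZMod 2) E] (Q : Submodule (ZMod 2) E)
    (hf : Finite Q) (h8 : 8 ≤ Nat.card Q) : Nat.card Q = 8 ∨ 16 ≤ Nat.card Q := by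
  have : Module.Finite (ZMod 2) Q := Module.Finite.of_finite
  have h1 : Nat.card Q = 2 ^ finrank (ZMod 2) Q := by
    rw [Module.natCard_eq_pow_finrank (K := ZMod 2), Nat.card_zmod]
  rw [h1] at h8 ⊢
  rcases Nat.lt_or_ge (finrank (ZMod 2) Q) 3 with h | h
  · interval_cases (finrank (ZMod 2) Q) <;> omega
  · rcases Nat.eq_or_lt_of_le h with h | h
    · left; rw [← h]; norm_num
    · right
      calc 16 = 2 ^ 4 := by norm_num
        _ ≤ _ := Nat.pow_le_pow_right (by norm_num) h

/-- a linked family with at most sixteen quaternions is linked on affine planes -/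
theorem plane_of_count [Finite V] {A : Fam V} (hL : Linked A) (hc : (qs A).ncard ≤ 16)
    (x y z : V) : PlaneAt A x y z := by
  by_cases hd : Dep x y z
  · exact plane_dep hL hd
  by_contra hno'
  have hno : ∀ x' y' z' : V,
      Submodule.span (ZMod 2) {x', y', z'} = Submodule.span (ZMod 2) {x, y, z} →
      ¬ Crit A x' y' z' := fun x' y' z' hs hcr =>
    hno' (plane_transfer hL hs (plane_of_Crit hL hcr))
  obtain ⟨a, b, c, hs, -, ha, hb, hcR⟩ := exists_big3 hd hno
  -- permutations of the basis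
  have p1 : ¬ Crit A a b c := hno _ _ _ hs
  have p2 : ¬ Crit A b a c := hno _ _ _ (by
    rw [← hs]; congr 1; ext v; simp only [Set.mem_insert_iff, Set.mem_singleton_iff]; tauto)
  have p3 : ¬ Crit A c a b := hno _ _ _ (by
    rw [← hs]; congr 1; ext v; simp only [Set.mem_insert_iff, Set.mem_singleton_iff]; tauto)
  have p4 : ¬ Crit A a c b := hno _ _ _ (by
    rw [← hs]; congr 1; ext v; simp only [Set.mem_insert_iff, Set.mem_singleton_iff]; tauto)
  have p5 : ¬ Crit A b c a := hno _ _ _ (by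
    rw [← hs]; congr 1; ext v; simp only [Set.mem_insert_iff, Set.mem_singleton_iff]; tauto)
  have p6 : ¬ Crit A c b a := hno _ _ _ (by
    rw [← hs]; congr 1; ext v; simp only [Set.mem_insert_iff, Set.mem_singleton_iff]; tauto)
  have i1 : ∀ {u v w : V}, ¬ Crit A u v w → 2 * Nat.card ↥(QQ A v ⊓ QQ A u) ≤ Nat.card (QQ A v) :=
    fun h => card_of_notI1 fun h' => h (Or.inr (Or.inr h'))
  have i2 : ∀ {u v w : V}, ¬ Crit A u v w →
      4 * Nat.card ↥(QQ A v ⊓ QQ A u) ≤ Nat.card (QQ A v) ∨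
      4 * Nat.card ↥(QQ A w ⊓ QQ A u) ≤ Nat.card (QQ A w) := by
    intro u v w h
    by_cases h1 : I2 A u v
    · exact Or.inr (card_of_notI2 fun h2 => h (Or.inr (Or.inl ⟨h1, h2⟩)))
    · exact Or.inl (card_of_notI2 h1)
  have a1 := i1 p1
  have a2 := i1 p2
  have a3 := i1 p3
  have a4 := i1 p4
  have a5 := i1 p5
  have a6 := i1 p6
  have b1 := i2 p1
  have b2 := i2 p2
  have b3 := i2 p3
  have ca := pow_card _ (QQ_fin A a) (card_of_notR2 ha)
  have cb := pow_card _ (QQ_fin A b) (card_of_notR2 hb)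
  have cc := pow_card _ (QQ_fin A c) (card_of_notR2 hcR)
  rw [inf_comm (QQ A a) (QQ A b)] at a2 b2
  rw [inf_comm (QQ A a) (QQ A c)] at a3 b3
  rw [inf_comm (QQ A b) (QQ A c)] at a6 b3
  -- union
  let P : Set (A → ZMod 2) := (((QQ A a : Submodule (ZMod 2) (A → ZMod 2))) : Set (A → ZMod 2))
  let Q : Set (A → ZMod 2) := (((QQ A b : Submodule (ZMod 2) (A → ZMod 2))) : Set (A → ZMod 2))
  let R : Set (A → ZMod 2) := (((QQ A c : Submodule (ZMod 2) (A → ZMod 2))) : Set (A → ZMod 2))
  have fin : ∀ s : Set (A → ZMod 2), s ⊆ qs A → s.Finite := fun s hs => (qs_finite A).subset hs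
  have sP : P ⊆ qs A := QQ_sub A a
  have sQ : Q ⊆ qs A := QQ_sub A b
  have sR : R ⊆ qs A := QQ_sub A c
  have nP : Nat.card (QQ A a) = P.ncard := Nat.card_coe_set_eq P
  have nQ : Nat.card (QQ A b) = Q.ncard := Nat.card_coe_set_eq Q
  have nR : Nat.card (QQ A c) = R.ncard := Nat.card_coe_set_eq R
  have nQP : Nat.card ↥(QQ A b ⊓ QQ A a) = (P ∩ Q).ncard := by
    rw [Set.inter_comm]; exact Nat.card_coe_set_eq (Q ∩ P)
  have nRP : Nat.card ↥(QQ A c ⊓ QQ A a) = (P ∩ R).ncard := by
    rw [Set.inter_comm]; exact Nat.card_coe_set_eq (R ∩ P)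
  have nRQ : Nat.card ↥(QQ A c ⊓ QQ A b) = (Q ∩ R).ncard := by
    rw [Set.inter_comm]; exact Nat.card_coe_set_eq (R ∩ Q)
  have u1 := Set.ncard_union_add_ncard_inter P Q (fin _ sP) (fin _ sQ)
  have u2 := Set.ncard_union_add_ncard_inter (P ∪ Q) R ((fin _ sP).union (fin _ sQ)) (fin _ sR)
  have u3 := Set.ncard_union_add_ncard_inter (P ∩ R) (Q ∩ R) ((fin _ sP).inter_of_left _)
    ((fin _ sQ).inter_of_left _)
  rw [Set.union_inter_distrib_right] at u2
  have u4 : 1 ≤ ((P ∩ R) ∩ (Q ∩ R)).ncard := by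
    rw [Nat.one_le_iff_ne_zero, ← Nat.pos_iff_ne_zero, Set.ncard_pos]
    exact ⟨0, ⟨(QQ A a).zero_mem, (QQ A c).zero_mem⟩, ⟨(QQ A b).zero_mem, (QQ A c).zero_mem⟩⟩
  have u5 : (P ∪ Q ∪ R).ncard ≤ (qs A).ncard :=
    Set.ncard_le_ncard (Set.union_subset (Set.union_subset sP sQ) sR) (qs_finite A)
  have u6 : (P ∪ Q).ncard ≤ (P ∪ Q ∪ R).ncard :=
    Set.ncard_le_ncard Set.subset_union_left
      (((fin _ sP).union (fin _ sQ)).union (fin _ sR))
  have u7 : R.ncard ≤ (P ∪ Q ∪ R).ncard :=
    Set.ncard_le_ncard Set.subset_union_right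
      (((fin _ sP).union (fin _ sQ)).union (fin _ sR))
  have u8 : (P ∪ R).ncard ≤ (P ∪ Q ∪ R).ncard :=
    Set.ncard_le_ncard (Set.union_subset_union_left _ Set.subset_union_left)
      (((fin _ sP).union (fin _ sQ)).union (fin _ sR))
  have u9 := Set.ncard_union_add_ncard_inter P R (fin _ sP) (fin _ sR)
  omega

end

end Pool.Agent.X21.ET
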