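import Mathlib

set_option autoImplicit false

/-!
A count on the Fano plane: if `h_l ∈ F_2^3` satisfies `⟨l, h_l⟩ = 1` for the seven nonzero
`l ∈ F_2^3`, then there are at least 28 different vectors `(⟨l,p⟩⟨m,h_l⟩)_l`, `p, m ∈ F_2^3`.
Vectors of `F_2^7` are written as natural numbers `< 128`.
-/

namespace Pool.Agent.X21.ET.Fano

/-- one step of the count: `m` is the set of the elements seen before, `c` their number -/
def st (v : ℕ) (k : ℕ → ℕ → ℕ) (m c : ℕ) : ℕ :=
  cond (Nat.beq (Nat.land (Nat.shiftRight m v) 1) 0)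
    (k (Nat.lor m (Nat.shiftLeft 1 v)) (Nat.succ c)) (k m c)

/-- the seven vectors `(⟨l,p⟩ s_l)_l`, `p ≠ 0` -/
def row (s : ℕ) (k : ℕ → ℕ → ℕ) : ℕ → ℕ → ℕ :=
  st (Nat.land s 85) (st (Nat.land s 102) (st (Nat.land s 51) (st (Nat.land s 120)
    (st (Nat.land s 45) (st (Nat.land s 30) (st (Nat.land s 75) k))))))

/-- the number of different vectors -/
def vals (a b c : ℕ) : ℕ :=
  row a (row b (row (Nat.xor a b) (row c (row (Nat.xor a c) (row (Nat.xor b c)
    (row (Nat.xor a (Nat.xor b c)) (fun _ c => c))))))) 1 1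

/-- the vectors `h` with `⟨l,h⟩ = 1` -/
def opt (l : ℕ) : List (ℕ × ℕ × ℕ) :=
  ([(0, 0, 0), (1, 0, 0), (0, 1, 0), (1, 1, 0), (0, 0, 1), (1, 0, 1), (0, 1, 1), (1, 1, 1)] :
    List (ℕ × ℕ × ℕ)).filter
    fun o => ((l % 2) * o.1 + (l / 2 % 2) * o.2.1 + (l / 4) * o.2.2) % 2 == 1

/-- the number with the given digits -/
def dg (x1 x2 x3 x4 x5 x6 x7 : ℕ) : ℕ :=
  x1 + 2 * (x2 + 2 * (x3 + 2 * (x4 + 2 * (x5 + 2 * (x6 + 2 * x7)))))

/-- the check for one `h` -/
def leaf (o1 o2 o3 o4 o5 o6 o7 : ℕ × ℕ × ℕ) : Bool :=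
  Nat.ble 28 (vals (dg o1.1 o2.1 o3.1 o4.1 o5.1 o6.1 o7.1)
    (dg o1.2.1 o2.2.1 o3.2.1 o4.2.1 o5.2.1 o6.2.1 o7.2.1)
    (dg o1.2.2 o2.2.2 o3.2.2 o4.2.2 o5.2.2 o6.2.2 o7.2.2))

/-- the check for given `o1` -/
def part (o1 : ℕ × ℕ × ℕ) : Bool :=
  (opt 2).all fun o2 => (opt 3).all fun o3 => (opt 4).all fun o4 => (opt 5).all fun o5 =>
    (opt 6).all fun o6 => (opt 7).all fun o7 => leaf o1 o2 o3 o4 o5 o6 o7

theorem part1 : part (1, 0, 0) = true := by decide +kernel
theorem part2 : part (1, 1, 0) = true := by decide +kernel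
theorem part3 : part (1, 0, 1) = true := by decide +kernel
theorem part4 : part (1, 1, 1) = true := by decide +kernel

theorem leaf_all {o1 o2 o3 o4 o5 o6 o7 : ℕ × ℕ × ℕ} (h1 : o1 ∈ opt 1) (h2 : o2 ∈ opt 2)
    (h3 : o3 ∈ opt 3) (h4 : o4 ∈ opt 4) (h5 : o5 ∈ opt 5) (h6 : o6 ∈ opt 6) (h7 : o7 ∈ opt 7) :
    leaf o1 o2 o3 o4 o5 o6 o7 = true := by
  have hp : part o1 = true := by
    have h8 : opt 1 = [(1, 0, 0), (1, 1, 0), (1, 0, 1), (1, 1, 1)] := by decide
    rw [h8] at h1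
    simp only [List.mem_cons, List.not_mem_nil, or_false] at h1
    rcases h1 with rfl | rfl | rfl | rfl
    · exact part1
    · exact part2
    · exact part3
    · exact part4
  unfold part at hp
  exact List.all_eq_true.1 (List.all_eq_true.1 (List.all_eq_true.1 (List.all_eq_true.1
    (List.all_eq_true.1 (List.all_eq_true.1 hp _ h2) _ h3) _ h4) _ h5) _ h6) _ h7

/-- the list of the vectors -/
def rowL (s : ℕ) : List ℕ :=
  [Nat.land s 85, Nat.land s 102, Nat.land s 51, Nat.land s 120, Nat.land s 45, Nat.land s 30,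
    Nat.land s 75]

/-- all vectors -/
def codes (a b c : ℕ) : List ℕ :=
  rowL a ++ (rowL b ++ (rowL (Nat.xor a b) ++ (rowL c ++ (rowL (Nat.xor a c) ++
    (rowL (Nat.xor b c) ++ rowL (Nat.xor a (Nat.xor b c)))))))

theorem row_eq (s : ℕ) (k : ℕ → ℕ → ℕ) : row s k = (rowL s).foldr st k := rfl

theorem vals_eq (a b c : ℕ) :
    vals a b c = (codes a b c).foldr st (fun _ c => c) 1 1 := by
  unfold vals codes
  simp only [List.foldr_append, row_eq]

theorem st_eq (v : ℕ) (k : ℕ → ℕ → ℕ) (m c : ℕ) :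
    st v k m c = if m.testBit v then k m c else k (m ||| (1 <<< v)) (c + 1) := by
  unfold st
  have h1 : Nat.beq (Nat.land (Nat.shiftRight m v) 1) 0 = !(m.testBit v) := by
    rw [Nat.testBit]
    show Nat.beq ((m >>> v) &&& 1) 0 = _
    rw [Nat.land_comm (m >>> v) 1]
    rcases h : (1 &&& (m >>> v)) with _ | n
    · rfl
    · rfl
  rw [h1]
  cases h : m.testBit v
  · rfl
  · rfl

theorem foldr_le (l : List ℕ) : ∀ m c : ℕ, l.foldr st (fun _ c => c) m c ≤
    c + (l.toFinset.filter (fun v => m.testBit v = false)).card := by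
  induction l with
  | nil => intro m c; exact Nat.le_add_right _ _
  | cons v l ih =>
    intro m c
    rw [List.foldr_cons, st_eq]
    cases h : m.testBit v
    · rw [if_neg (by simp)]
      refine (ih _ _).trans ?_
      have h1 : insert v (l.toFinset.filter (fun w => (m ||| (1 <<< v)).testBit w = false)) ⊆
          (v :: l).toFinset.filter (fun w => m.testBit w = false) := by
        intro w hw
        rw [Finset.mem_insert, Finset.mem_filter] at hw
        rw [Finset.mem_filter, List.toFinset_cons, Finset.mem_insert]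
        rcases hw with rfl | ⟨h1, h2⟩
        · exact ⟨Or.inl rfl, h⟩
        · rw [Nat.testBit_or, Bool.or_eq_false_iff] at h2
          exact ⟨Or.inr h1, h2.1⟩
      have h2 := Finset.card_le_card h1
      rw [Finset.card_insert_of_notMem] at h2
      · omega
      · rw [Finset.mem_filter]
        rintro ⟨-, h3⟩
        rw [Nat.testBit_or, Bool.or_eq_false_iff] at h3
        have h4 := h3.2
        rw [Nat.testBit_shiftLeft] at h4
        simp at h4
    · rw [if_pos rfl]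
      refine (ih _ _).trans ?_
      refine Nat.add_le_add_left (Finset.card_le_card ?_) _
      intro w hw
      rw [Finset.mem_filter] at hw ⊢
      exact ⟨by rw [List.toFinset_cons]; exact Finset.mem_insert_of_mem hw.1, hw.2⟩

/-- at least 28 vectors -/
theorem count {o1 o2 o3 o4 o5 o6 o7 : ℕ × ℕ × ℕ} (h1 : o1 ∈ opt 1) (h2 : o2 ∈ opt 2)
    (h3 : o3 ∈ opt 3) (h4 : o4 ∈ opt 4) (h5 : o5 ∈ opt 5) (h6 : o6 ∈ opt 6) (h7 : o7 ∈ opt 7) :
    28 ≤ (insert 0 (codes (dg o1.1 o2.1 o3.1 o4.1 o5.1 o6.1 o7.1)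
      (dg o1.2.1 o2.2.1 o3.2.1 o4.2.1 o5.2.1 o6.2.1 o7.2.1)
      (dg o1.2.2 o2.2.2 o3.2.2 o4.2.2 o5.2.2 o6.2.2 o7.2.2)).toFinset).card := by
  have h := leaf_all h1 h2 h3 h4 h5 h6 h7
  unfold leaf at h
  have h' := Nat.le_of_ble_eq_true h
  rw [vals_eq] at h'
  refine (h'.trans (foldr_le _ _ _)).trans ?_
  generalize codes _ _ _ = L
  have h8 : insert 0 (L.toFinset.filter (fun v => Nat.testBit 1 v = false)) ⊆
      insert 0 L.toFinset := by
    intro w hw
    rw [Finset.mem_insert, Finset.mem_filter] at hw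
    rw [Finset.mem_insert]
    rcases hw with rfl | ⟨h, -⟩
    · exact Or.inl rfl
    · exact Or.inr h
  have h9 := Finset.card_le_card h8
  rw [Finset.card_insert_of_notMem (by
    rw [Finset.mem_filter]
    rintro ⟨-, h⟩
    exact absurd h (by decide))] at h9
  omega

end Pool.Agent.X21.ET.Fano
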