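import Pool.Agent.X21.ET.Cnt
import Pool.Agent.X21.ET.Fano

set_option autoImplicit false

/-!
A linked family which is not linked on some affine plane of `⟨x,y,z⟩` has at least 28 quaternions
with a slot in `⟨x,y,z⟩`.
-/

namespace Pool.Agent.X21.ET

open Pool.Agent.W622.ETG Module Pool.Agent.TH188.ETP

section
variable {V : Type} [AddCommGroup V] [Module (ZMod 2) V] {e : V}

/-- the element of `⟨x,y,z⟩` with number `p < 8` -/
def pt (x y z : V) (p : ℕ) : V :=
  (if p.testBit 0 then x else 0) + (if p.testBit 1 then y else 0) + (if p.testBit 2 then z else 0)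

/-- the pairing of `l` and `p` -/
def par (l p : ℕ) : Bool :=
  xor (xor (l.testBit 0 && p.testBit 0) (l.testBit 1 && p.testBit 1)) (l.testBit 2 && p.testBit 2)

theorem par_xor (l p q : ℕ) : par l (p ^^^ q) = xor (par l p) (par l q) := by
  unfold par
  rw [Nat.testBit_xor, Nat.testBit_xor, Nat.testBit_xor]
  cases l.testBit 0 <;> cases l.testBit 1 <;> cases l.testBit 2 <;> cases p.testBit 0 <;>
    cases p.testBit 1 <;> cases p.testBit 2 <;> cases q.testBit 0 <;> cases q.testBit 1 <;>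
    cases q.testBit 2 <;> rfl

theorem pt_xor (x y z : V) (p q : ℕ) : pt x y z (p ^^^ q) = pt x y z p + pt x y z q := by
  have key : ∀ (b b' : Bool) (v : V), (if (xor b b') = true then v else 0) =
      (if b = true then v else 0) + (if b' = true then v else 0) := by
    intro b b' v
    cases b <;> cases b' <;> simp [vadd]
  unfold pt
  rw [Nat.testBit_xor, Nat.testBit_xor, Nat.testBit_xor, key, key, key]
  abel

theorem dual1 {A : Fam V} (hL : Linked A) {x y z a b c : V} {f : Dl V} (fx : In A x f)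
    (fy : In A y f) (fz : In A z f) (fw : In A (x + y + z) f)
    (R : ∀ ω ∈ A, ω x a + ω y b + ω z c = 0) (H : f a + f b + f c = 1) :
    ∃ k : Dl V, In A x k ∧ In A (x + y) k ∧ In A (x + z) k ∧ In A (x + y + z) k ∧ k a = 1 := by
  obtain ⟨ω, hω, e1, e2⟩ := pairL hL y z f fy fz
  refine ⟨f + ω x, fx.add ⟨ω, hω, rfl⟩, ⟨ω, hω, ?_⟩, ⟨ω, hω, ?_⟩, ?_, ?_⟩
  · rw [map_add, e1, add_comm]
  · rw [map_add, e2, add_comm]
  · have := fw.add ⟨ω, hω, rfl⟩
    rw [map_add, map_add, e1, e2] at this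
    have e3 : f + (ω x + f + f) = f + ω x := by rw [add_assoc, vadd, add_zero]
    rwa [e3] at this
  · have h1 := R ω hω
    rw [e1, e2] at h1
    rw [LinearMap.add_apply]
    have h2 : ω x a = f b + f c := by
      have : ω x a + (f b + f c) = 0 := by rw [← add_assoc]; exact h1
      exact CharTwo.add_eq_zero.1 this
    rw [h2, ← add_assoc]
    exact H

theorem dual3 {A : Fam V} (hL : Linked A) {x y z a b c : V} {f : Dl V} (fx : In A x f)
    (fy : In A y f) (fz : In A z f) (fw : In A (x + y + z) f)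
    (R : ∀ ω ∈ A, ω x a + ω y b + ω z c = 0) (H : f a + f b + f c = 1) :
    ∃ k : Dl V, In A x k ∧ In A y k ∧ In A (x + z) k ∧ In A (y + z) k ∧ k (a + b) = 1 := by
  obtain ⟨ω, hω, e1, e2⟩ := pairL hL z (x + y + z) f fz fw
  have e3 : ω x = ω y := by
    rw [map_add, map_add, e1] at e2
    have h1 : ω x + ω y = 0 := by
      have h2 : f + (ω x + ω y) = f + 0 := by rw [add_zero, add_comm]; exact e2
      exact add_left_cancel h2
    exact Pool.Agent.W622.ETC.add_eq_zero'.1 h1
  refine ⟨f + ω x, fx.add ⟨ω, hω, rfl⟩, fy.add ⟨ω, hω, e3.symm⟩, ⟨ω, hω, ?_⟩, ⟨ω, hω, ?_⟩, ?_⟩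
  · rw [map_add, e1, add_comm]
  · rw [map_add, e1, add_comm, e3]
  · have h1 := R ω hω
    rw [e1] at h1
    rw [LinearMap.add_apply, map_add, map_add]
    have h2 : ω x a + ω x b = f c := by
      rw [← e3] at h1
      exact CharTwo.add_eq_zero.1 h1
    rw [h2]
    exact H

theorem exists_dual [Finite V] {A : Fam V} (hL : Linked A) {x y z : V}
    (hno : ¬ PlaneAt A x y z) :
    ∃ (a b c : V) (F : ℕ → Dl V),
      (∀ l p : ℕ, 1 ≤ l → l < 8 → p < 8 → par l p = true → In A (pt x y z p) (F l)) ∧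
      ∀ l : ℕ, 1 ≤ l → l < 8 → F l (pt a b c l) = 1 := by
  unfold PlaneAt at hno
  push Not at hno
  obtain ⟨f, fx, fy, fz, fw, hno⟩ := hno
  -- a relation
  let ev : Frm V →ₗ[ZMod 2] Dl V × Dl V × Dl V :=
    (LinearMap.applyₗ x).prod ((LinearMap.applyₗ y).prod (LinearMap.applyₗ z))
  have hev : ∀ ω, ev ω = (ω x, ω y, ω z) := fun _ => rfl
  have hnot : ((f, f, f) : Dl V × Dl V × Dl V) ∉ Submodule.map ev A := by
    rintro ⟨ω, hω, h⟩
    rw [hev] at h
    simp only [Prod.mk.injEq] at h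
    exact hno ω hω h.1 h.2.1 h.2.2
  obtain ⟨Φ, hΦ1, hΦ2⟩ := Submodule.exists_le_ker_of_notMem hnot
  have hfd : FiniteDimensional (ZMod 2) V := Module.Finite.of_finite
  have hrep : ∀ φ : Dl V →ₗ[ZMod 2] ZMod 2, ∃ v : V, ∀ g : Dl V, φ g = g v := by
    intro φ
    refine ⟨(Module.evalEquiv (ZMod 2) V).symm φ, fun g => ?_⟩
    exact (Module.apply_evalEquiv_symm_apply (ZMod 2) V g φ).symm
  obtain ⟨a, ha⟩ := hrep (Φ.comp (LinearMap.inl (ZMod 2) (Dl V) (Dl V × Dl V)))
  obtain ⟨b, hb⟩ := hrep (Φ.comp ((LinearMap.inr (ZMod 2) (Dl V) (Dl V × Dl V)).comp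
    (LinearMap.inl (ZMod 2) (Dl V) (Dl V))))
  obtain ⟨c, hc⟩ := hrep (Φ.comp ((LinearMap.inr (ZMod 2) (Dl V) (Dl V × Dl V)).comp
    (LinearMap.inr (ZMod 2) (Dl V) (Dl V))))
  have hφ : ∀ u v w : Dl V, Φ (u, v, w) = u a + v b + w c := by
    intro u v w
    rw [← ha, ← hb, ← hc]
    show _ = Φ _ + Φ _ + Φ _
    rw [← map_add, ← map_add]
    simp
  have R : ∀ ω ∈ A, ω x a + ω y b + ω z c = 0 := by
    intro ω hω
    rw [← hφ]
    exact hΦ2 ⟨ω, hω, rfl⟩
  have H : f a + f b + f c = 1 := by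
    rw [← hφ]
    exact z_ne hΦ1
  have sw : ∀ {p q : V}, p = q → In A p f → In A q f := fun h h' => h ▸ h'
  obtain ⟨f1, i11, i12, i13, i14, j1⟩ := dual1 hL fx fy fz fw R H
  obtain ⟨f2, i21, i22, i23, i24, j2⟩ := dual1 hL fy fx fz (sw (by abel) fw)
    (fun ω hω => by rw [← R ω hω]; ring) (by rw [← H]; ring)
  obtain ⟨f4, i41, i42, i43, i44, j4⟩ := dual1 hL fz fx fy (sw (by abel) fw)
    (fun ω hω => by rw [← R ω hω]; ring) (by rw [← H]; ring)
  obtain ⟨f3, i31, i32, i33, i34, j3⟩ := dual3 hL fx fy fz fw R H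
  obtain ⟨f5, i51, i52, i53, i54, j5⟩ := dual3 hL fx fz fy (sw (by abel) fw)
    (fun ω hω => by rw [← R ω hω]; ring) (by rw [← H]; ring)
  obtain ⟨f6, i61, i62, i63, i64, j6⟩ := dual3 hL fy fz fx (sw (by abel) fw)
    (fun ω hω => by rw [← R ω hω]; ring) (by rw [← H]; ring)
  refine ⟨a, b, c, fun l => match l with
    | 1 => f1
    | 2 => f2
    | 3 => f3
    | 4 => f4
    | 5 => f5
    | 6 => f6
    | _ => f, ?_, ?_⟩
  · have p0 : pt x y z 0 = 0 := by simp [pt]
    have p1 : pt x y z 1 = x := by simp [pt, Nat.testBit]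
    have p2 : pt x y z 2 = y := by simp [pt, Nat.testBit]
    have p3 : pt x y z 3 = x + y := by simp [pt, Nat.testBit]
    have p4 : pt x y z 4 = z := by simp [pt, Nat.testBit]
    have p5 : pt x y z 5 = x + z := by simp [pt, Nat.testBit]
    have p6 : pt x y z 6 = y + z := by simp [pt, Nat.testBit]
    have p7 : pt x y z 7 = x + y + z := by simp [pt, Nat.testBit]
    have i22' : In A (x + y) f2 := add_comm y x ▸ i22
    have e1 : y + x + z = x + y + z := by abel
    have i24' : In A (x + y + z) f2 := e1 ▸ i24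
    have i42' : In A (x + z) f4 := add_comm z x ▸ i42
    have i43' : In A (y + z) f4 := add_comm z y ▸ i43
    have e2 : z + x + y = x + y + z := by abel
    have i44' : In A (x + y + z) f4 := e2 ▸ i44
    have i54' : In A (y + z) f5 := add_comm z y ▸ i54
    have i63' : In A (x + y) f6 := add_comm y x ▸ i63
    have i64' : In A (x + z) f6 := add_comm z x ▸ i64
    intro l p h1 h2 h3 h4
    interval_cases l <;> interval_cases p <;>
      first
      | exact absurd h4 (by decide)
      | (simp only [p1, p2, p3, p4, p5, p6, p7]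
         assumption)
  · have p1 : pt a b c 1 = a := by simp [pt, Nat.testBit]
    have p2 : pt a b c 2 = b := by simp [pt, Nat.testBit]
    have p3 : pt a b c 3 = a + b := by simp [pt, Nat.testBit]
    have p4 : pt a b c 4 = c := by simp [pt, Nat.testBit]
    have p5 : pt a b c 5 = a + c := by simp [pt, Nat.testBit]
    have p6 : pt a b c 6 = b + c := by simp [pt, Nat.testBit]
    have p7 : pt a b c 7 = a + b + c := by simp [pt, Nat.testBit]
    intro l h1 h2
    interval_cases l <;> simp only [p1, p2, p3, p4, p5, p6, p7]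
    · exact j1
    · exact j2
    · exact j3
    · exact j4
    · exact j5
    · exact j6
    · rw [map_add, map_add]; exact H

/-- the values of `F_l` are determined by the quaternion -/
theorem wd {A : Fam V} (hL : Linked A) {x y z : V} {F : ℕ → Dl V}
    (hF : ∀ l p : ℕ, 1 ≤ l → l < 8 → p < 8 → par l p = true → In A (pt x y z p) (F l))
    {l p q : ℕ} (h1 : 1 ≤ l) (h2 : l < 8) (hp : p < 8) (hq : q < 8) {g h : V}
    (he : evp A (pt x y z p) g = evp A (pt x y z q) h) :
    (par l p && decide (F l g = 1)) = (par l q && decide (F l h = 1)) := by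
  have he' : ∀ ω ∈ A, ω (pt x y z p) g = ω (pt x y z q) h := fun ω hω =>
    congrFun he ⟨ω, hω⟩
  have hpq : p ^^^ q < 8 := Nat.xor_lt_two_pow (n := 3) hp hq
  cases hlp : par l p <;> cases hlq : par l q
  · rfl
  · -- `F_l h = 0`
    have h3 := hF l q h1 h2 hq hlq
    have h4 := hF l (p ^^^ q) h1 h2 hpq (by rw [par_xor, hlp, hlq]; rfl)
    obtain ⟨ω, hω, e1, e2⟩ := pairL hL _ _ _ h3 h4
    rw [pt_xor, map_add, e1] at e2
    have e3 : ω (pt x y z p) = 0 := by
      exact right_eq_add.1 e2.symm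
    have e4 := he' ω hω
    rw [e1, e3] at e4
    have e5 : F l h = 0 := e4.symm
    rw [e5]
    simp
  · have h3 := hF l p h1 h2 hp hlp
    have h4 := hF l (p ^^^ q) h1 h2 hpq (by rw [par_xor, hlp, hlq]; rfl)
    obtain ⟨ω, hω, e1, e2⟩ := pairL hL _ _ _ h3 h4
    rw [pt_xor, map_add, e1] at e2
    have e3 : ω (pt x y z q) = 0 := by
      exact left_eq_add.1 e2.symm
    have e4 := he' ω hω
    rw [e1, e3] at e4
    have e5 : F l g = 0 := e4
    rw [e5]
    simp
  · have h3 := hF l p h1 h2 hp hlp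
    have h4 := hF l q h1 h2 hq hlq
    obtain ⟨ω, hω, e1, e2⟩ := pairL hL _ _ _ h3 h4
    have e4 := he' ω hω
    rw [e1, e2] at e4
    rw [e4]

/-- `s` is the vector of the values at `g` -/
def Rep (F : ℕ → Dl V) (s : ℕ) (g : V) : Prop :=
  ∀ i : ℕ, s.testBit i = (decide (i < 7) && decide (F (i + 1) g = 1))

/-- `v` is the vector of the quaternion `(p,g)` -/
def Code (F : ℕ → Dl V) (v p : ℕ) (g : V) : Prop :=
  ∀ i : ℕ, v.testBit i = (decide (i < 7) && (par (i + 1) p && decide (F (i + 1) g = 1)))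

theorem Rep.xor {F : ℕ → Dl V} {s s' : ℕ} {g g' : V} (h : Rep F s g) (h' : Rep F s' g') :
    Rep F (Nat.xor s s') (g + g') := by
  intro i
  have h1 : (Nat.xor s s').testBit i = Bool.xor (s.testBit i) (s'.testBit i) :=
    Nat.testBit_xor _ _ _
  rw [h1, h i, h' i, map_add]
  cases decide (i < 7)
  · rfl
  · rcases z01 (F (i + 1) g) with e1 | e1 <;> rcases z01 (F (i + 1) g') with e2 | e2 <;>
      rw [e1, e2] <;> decide

theorem mask_testBit {m p : ℕ} (hm : m < 128)
    (h : ∀ i : Fin 7, m.testBit i = par (i + 1) p) (i : ℕ) :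
    m.testBit i = (decide (i < 7) && par (i + 1) p) := by
  by_cases hi : i < 7
  · rw [decide_eq_true hi, Bool.true_and]
    exact h ⟨i, hi⟩
  · rw [decide_eq_false hi, Bool.false_and]
    apply Nat.testBit_lt_two_pow
    refine hm.trans_le ?_
    calc 128 = 2 ^ 7 := by norm_num
      _ ≤ 2 ^ i := Nat.pow_le_pow_right (by norm_num) (by omega)

theorem Rep.land {F : ℕ → Dl V} {s m p : ℕ} {g : V} (h : Rep F s g) (hm : m < 128)
    (h' : ∀ i : Fin 7, m.testBit i = par (i + 1) p) : Code F (Nat.land s m) p g := by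
  intro i
  have h1 : (Nat.land s m).testBit i = ((s.testBit i) && (m.testBit i)) :=
    Nat.testBit_and _ _ _
  rw [h1, h i, mask_testBit hm h' i]
  cases decide (i < 7) <;> cases par (i + 1) p <;> cases decide (F (i + 1) g = 1) <;> rfl

theorem code_row {F : ℕ → Dl V} {s : ℕ} {g : V} (h : Rep F s g) {v : ℕ}
    (hv : v ∈ Fano.rowL s) : ∃ p < 8, Code F v p g := by
  unfold Fano.rowL at hv
  simp only [List.mem_cons, List.not_mem_nil, or_false] at hv
  rcases hv with rfl | rfl | rfl | rfl | rfl | rfl | rfl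
  · exact ⟨1, by norm_num, h.land (by norm_num) (by decide)⟩
  · exact ⟨2, by norm_num, h.land (by norm_num) (by decide)⟩
  · exact ⟨3, by norm_num, h.land (by norm_num) (by decide)⟩
  · exact ⟨4, by norm_num, h.land (by norm_num) (by decide)⟩
  · exact ⟨5, by norm_num, h.land (by norm_num) (by decide)⟩
  · exact ⟨6, by norm_num, h.land (by norm_num) (by decide)⟩
  · exact ⟨7, by norm_num, h.land (by norm_num) (by decide)⟩

theorem code_all {F : ℕ → Dl V} {s1 s2 s3 : ℕ} {a b c : V} (ha : Rep F s1 a) (hb : Rep F s2 b)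
    (hc : Rep F s3 c) {v : ℕ} (hv : v ∈ Fano.codes s1 s2 s3) :
    ∃ p < 8, ∃ g : V, Code F v p g := by
  unfold Fano.codes at hv
  simp only [List.mem_append] at hv
  have key : ∀ {s : ℕ} {g : V}, Rep F s g → v ∈ Fano.rowL s → ∃ p < 8, ∃ g : V, Code F v p g := by
    intro s g h hv
    obtain ⟨p, hp, h'⟩ := code_row h hv
    exact ⟨p, hp, g, h'⟩
  rcases hv with h | h | h | h | h | h | h
  · exact key ha h
  · exact key hb h
  · exact key (ha.xor hb) h
  · exact key hc h
  · exact key (ha.xor hc) h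
  · exact key (hb.xor hc) h
  · exact key (ha.xor (hb.xor hc)) h

theorem dg_bits : ∀ x1 x2 x3 x4 x5 x6 x7 : Fin 2, ∀ i : Fin 7,
    (Fano.dg x1 x2 x3 x4 x5 x6 x7).testBit i = decide (![x1, x2, x3, x4, x5, x6, x7] i = 1) := by
  decide +kernel

theorem dg_lt : ∀ x1 x2 x3 x4 x5 x6 x7 : Fin 2, Fano.dg x1 x2 x3 x4 x5 x6 x7 < 128 := by
  decide +kernel

/-- the digit -/
def d (r : ZMod 2) : Fin 2 := r

theorem rep_dg (F : ℕ → Dl V) (g : V) :
    Rep F (Fano.dg (d (F 1 g)) (d (F 2 g)) (d (F 3 g)) (d (F 4 g)) (d (F 5 g)) (d (F 6 g))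
      (d (F 7 g))) g := by
  intro i
  by_cases hi : i < 7
  · rw [decide_eq_true hi, Bool.true_and]
    have := dg_bits (d (F 1 g)) (d (F 2 g)) (d (F 3 g)) (d (F 4 g)) (d (F 5 g)) (d (F 6 g))
      (d (F 7 g)) ⟨i, hi⟩
    refine this.trans ?_
    interval_cases i <;> rfl
  · rw [decide_eq_false hi, Bool.false_and]
    apply Nat.testBit_lt_two_pow
    refine (dg_lt _ _ _ _ _ _ _).trans_le ?_
    calc 128 = 2 ^ 7 := by norm_num
      _ ≤ 2 ^ i := Nat.pow_le_pow_right (by norm_num) (by omega)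

theorem mem_opt : ∀ (l : Fin 7) (u v w : Fin 2),
    ((if (l.1 + 1).testBit 0 then u else 0) + (if (l.1 + 1).testBit 1 then v else 0) +
      (if (l.1 + 1).testBit 2 then w else 0) : Fin 2) = 1 →
    ((u : ℕ), (v : ℕ), (w : ℕ)) ∈ Fano.opt (l + 1) := by
  decide +kernel

theorem opt_of_one {F : ℕ → Dl V} {a b c : V} {l : ℕ} (h1 : 1 ≤ l) (h2 : l < 8)
    (h : F l (pt a b c l) = 1) :
    ((d (F l a) : ℕ), (d (F l b) : ℕ), (d (F l c) : ℕ)) ∈ Fano.opt l := by
  obtain ⟨k, rfl⟩ : ∃ k, l = k + 1 := ⟨l - 1, by omega⟩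
  refine mem_opt ⟨k, by omega⟩ (d (F (k + 1) a)) (d (F (k + 1) b)) (d (F (k + 1) c)) ?_
  have key : ∀ (B : Bool) (v : V), F (k + 1) (if B = true then v else 0) =
      if B = true then F (k + 1) v else 0 := by
    intro B v
    cases B <;> simp
  unfold pt at h
  rw [map_add, map_add, key, key, key] at h
  exact h

/-- the quaternions with a slot in `⟨x,y,z⟩` -/
def QW (A : Fam V) (x y z : V) : Set (A → ZMod 2) :=
  {t | ∃ p < 8, ∃ g : V, t = evp A (pt x y z p) g}

theorem QW_sub (A : Fam V) (x y z : V) : QW A x y z ⊆ qs A := by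
  rintro _ ⟨p, -, g, rfl⟩
  exact ⟨(pt x y z p, g), rfl⟩

/-- a linked family which is not linked on an affine plane has many quaternions -/
theorem count_fail [Finite V] {A : Fam V} (hL : Linked A) {x y z : V}
    (hno : ¬ PlaneAt A x y z) : 28 ≤ (QW A x y z).ncard := by
  classical
  obtain ⟨a, b, c, F, hF, h1⟩ := exists_dual hL hno
  have hc := Fano.count (opt_of_one (le_refl 1) (by norm_num) (h1 1 (by norm_num) (by norm_num)))
    (opt_of_one (by norm_num) (by norm_num) (h1 2 (by norm_num) (by norm_num)))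
    (opt_of_one (by norm_num) (by norm_num) (h1 3 (by norm_num) (by norm_num)))
    (opt_of_one (by norm_num) (by norm_num) (h1 4 (by norm_num) (by norm_num)))
    (opt_of_one (by norm_num) (by norm_num) (h1 5 (by norm_num) (by norm_num)))
    (opt_of_one (by norm_num) (by norm_num) (h1 6 (by norm_num) (by norm_num)))
    (opt_of_one (by norm_num) (by norm_num) (h1 7 (by norm_num) (by norm_num)))
  refine hc.trans ?_
  generalize hC : insert 0 (Fano.codes _ _ _).toFinset = C
  have hcode : ∀ v ∈ C, ∃ p < 8, ∃ g : V, Code F v p g := by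
    intro v hv
    rw [← hC, Finset.mem_insert, List.mem_toFinset] at hv
    rcases hv with rfl | hv
    · refine ⟨0, by norm_num, 0, fun i => ?_⟩
      have h3 : par (i + 1) 0 = false := by simp [par]
      rw [Nat.zero_testBit, h3]
      simp
    · exact code_all (rep_dg F a) (rep_dg F b) (rep_dg F c) hv
  let P : ℕ → ℕ := fun v => if h : v ∈ C then (hcode v h).choose else 0
  have hP : ∀ v ∈ C, P v < 8 ∧ ∃ g : V, Code F v (P v) g := by
    intro v hv
    have := (hcode v hv).choose_spec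
    show (if h : v ∈ C then (hcode v h).choose else 0) < 8 ∧
      ∃ g : V, Code F v (if h : v ∈ C then (hcode v h).choose else 0) g
    rw [dif_pos hv]
    exact this
  let G : ℕ → V := fun v => if h : ∃ g : V, Code F v (P v) g then h.choose else 0
  have hG : ∀ v ∈ C, Code F v (P v) (G v) := by
    intro v hv
    obtain ⟨-, h⟩ := hP v hv
    show Code F v (P v) (if h : ∃ g : V, Code F v (P v) g then h.choose else 0)
    rw [dif_pos h]
    exact h.choose_spec
  have hfin : (QW A x y z).Finite := (qs_finite A).subset (QW_sub A x y z)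
  rw [Set.ncard_eq_toFinset_card _ hfin]
  refine Finset.card_le_card_of_injOn (fun v => evp A (pt x y z (P v)) (G v)) ?_ ?_
  · intro v hv
    rw [Finset.mem_coe, Set.Finite.mem_toFinset]
    exact ⟨P v, (hP v hv).1, G v, rfl⟩
  · intro v hv w hw h
    apply Nat.eq_of_testBit_eq
    intro i
    rw [hG v hv i, hG w hw i]
    by_cases hi : i < 7
    · rw [wd hL hF (l := i + 1) (by omega) (by omega) (hP v hv).1 (hP w hw).1 h]
    · rw [decide_eq_false hi, Bool.false_and, Bool.false_and]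

end

end Pool.Agent.X21.ET
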