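import Pool.Agent.X21.ET.Grp
import Pool.Agent.TH188.ET.FieldSmall

set_option autoImplicit false

/-! Fields: local criteria for elementary type. -/

open scoped Quaternion

noncomputable section

namespace Pool.Agent.X21.ET

open Pool.Agent.H315R3.ETC Pool.Agent.TH188.ET Pool.Agent.TH188.ETF

/-- the group of squares of `F*` -/
def squares (F : Type*) [Field F] : Subgroup Fˣ := (powMonoidHom 2 : Fˣ →* Fˣ).range

/-- `N(a)`: the group of the nonzero values of `x² - a y²` -/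
def normGroup {F : Type*} [Field F] (a : Fˣ) : Subgroup Fˣ where
  carrier := {c | NormFrom a c}
  one_mem' := NormFrom.one a
  mul_mem' := NormFrom.mul
  inv_mem' := NormFrom.inv

/-- `x, y, z` generate a group of less than eight square classes -/
def SqDependent {F : Type*} [Field F] (x y z : Fˣ) : Prop :=
  IsSquare x ∨ IsSquare y ∨ IsSquare z ∨ IsSquare (x * y * z) ∨ IsSquare (x * y) ∨
    IsSquare (x * z) ∨ IsSquare (y * z)

/-- the local condition at `x, y, z` -/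
def NormGood {F : Type*} [Field F] (x y z : Fˣ) : Prop :=
  ((normGroup x).index ≤ 4 ∧ (normGroup y).index ≤ 4 ∧ (normGroup z).index ≤ 4 ∧
      (normGroup (x * y * z)).index ≤ 4) ∨
    ((normGroup y ⊔ normGroup (x * y)).index ≤ 2 ∧ (normGroup z ⊔ normGroup (x * z)).index ≤ 2) ∨
    normGroup y ⊔ normGroup (x * y) = ⊤

/-- there are at most 27 isomorphism classes of quaternion algebras `(a,b)` over `F` with `a` in
the subgroup `W` of `F*` -/
def AtMost27 {F : Type*} [Field F] (W : Subgroup Fˣ) : Prop :=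
  ∀ a b : Fin 28 → Fˣ, (∀ i, a i ∈ W) → ∃ i j, i ≠ j ∧
    Nonempty (ℍ[F,(a i : F),0,(b i : F)] ≃ₐ[F] ℍ[F,(a j : F),0,(b j : F)])

universe u
variable {F : Type u} [Field F]

/-- the quaternionic structure of a field with its values in the Brauer group -/
theorem field_setup (h2 : (2 : F) ≠ 0) (hfin : FinSq F) :
    ∃ (S : QData) (φ : Fˣ →* S.G) (β : S.G → S.G → B2 F), IsStructureOf F S ∧ IsQuat S ∧
      Finite S.G ∧ Function.Surjective φ ∧ (∀ a : Fˣ, φ a = 1 ↔ ∃ b : Fˣ, a = b ^ 2) ∧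
      (∀ a b c, β a (b * c) = β a b + β a c) ∧
      (∀ a b c d, β a b = β c d ↔ S.q a b = S.q c d) ∧
      (∀ a b c d : Fˣ, S.q (φ a) (φ b) = S.q (φ c) (φ d) ↔ QIso a b c d) ∧
      ∀ a b : Fˣ, S.q (φ a) (φ b) = S.zero ↔ NormFrom a b := by
  obtain ⟨S, hS, hSfin, hSq⟩ := exists_structure h2 hfin
  have hS' := hS
  obtain ⟨φ, hs, hk, hn, h0, hq⟩ := hS
  have hinv : ∀ a b a' b' : Fˣ, φ a = φ a' → φ b = φ b' → bq h2 a b = bq h2 a' b' := by
    intro a b a' b' h1 h3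
    rw [bq_eq_iff]
    exact qiso_of_phi h2 hk h1 h3
  choose r hr using hs
  let β : S.G → S.G → B2 F := fun g h => bq h2 (r g) (r h)
  refine ⟨S, φ, β, hS', hSq, hSfin, fun g => ⟨r g, hr g⟩, hk, ?_, ?_, ?_, ?_⟩
  · intro g h k
    show bq h2 (r g) (r (h * k)) = bq h2 (r g) (r h) + bq h2 (r g) (r k)
    rw [← bq_mul]
    apply hinv _ _ _ _ rfl
    rw [map_mul, hr, hr, hr]
  · intro g h k l
    show bq h2 (r g) (r h) = bq h2 (r k) (r l) ↔ _
    rw [bq_eq_iff]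
    have := hq (r g) (r h) (r k) (r l)
    rw [hr, hr, hr, hr] at this
    exact this.symm
  · exact hq
  · intro a b
    rw [← bq_eq_zero_iff h2, ← h0]
    have h1 : bq h2 1 1 = 0 := (bq_eq_zero_iff h2 1 1).2 (NormFrom.one 1)
    rw [← h1, bq_eq_iff]
    have := hq a b 1 1
    rw [map_one] at this
    exact this

section
variable {S : QData} {φ : Fˣ →* S.G}

theorem sq_mem {a b : Fˣ} : b ^ 2 ∈ normGroup a := by
  refine ⟨(b : F), 0, ?_⟩
  rw [Units.val_pow_eq_pow_val]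
  ring

theorem ker_le (hk : ∀ a : Fˣ, φ a = 1 ↔ ∃ b : Fˣ, a = b ^ 2) (a : Fˣ) : φ.ker ≤ normGroup a := by
  intro x hx
  obtain ⟨b, rfl⟩ := (hk x).1 hx
  exact sq_mem

theorem smallSlot_of_index [Finite S.G] (hs : Function.Surjective φ)
    (hk : ∀ a : Fˣ, φ a = 1 ↔ ∃ b : Fˣ, a = b ^ 2)
    (h0 : ∀ a b : Fˣ, S.q (φ a) (φ b) = S.zero ↔ NormFrom a b) {a : Fˣ}
    (h : (normGroup a).index ≤ 4) : SmallSlot S (φ a) := by
  have h1 : (Subgroup.map φ (normGroup a)).index ≤ 4 := by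
    rw [Subgroup.index_map, MonoidHom.range_eq_top.2 hs, Subgroup.index_top, mul_one,
      sup_of_le_left (ker_le hk a)]
    exact h
  have h2 : Nat.card {b : S.G // S.q (φ a) b = S.zero} = Nat.card (Subgroup.map φ (normGroup a)) := by
    refine Nat.card_congr (Equiv.subtypeEquivRight fun b => ?_)
    obtain ⟨c, rfl⟩ := hs b
    rw [h0, Subgroup.mem_map]
    constructor
    · intro hc; exact ⟨c, hc, rfl⟩
    · rintro ⟨d, hd, hdc⟩
      have h3 : c * d⁻¹ ∈ φ.ker := by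
        rw [MonoidHom.mem_ker, map_mul, map_inv, hdc, mul_inv_cancel]
      have h4 := (normGroup a).mul_mem (ker_le hk a h3) hd
      rw [inv_mul_cancel_right] at h4
      exact h4
  unfold SmallSlot
  rw [h2, ← (Subgroup.map φ (normGroup a)).card_mul_index, mul_comm]
  exact Nat.mul_le_mul_right _ h1

theorem inProd_of_mem (h0 : ∀ a b : Fˣ, S.q (φ a) (φ b) = S.zero ↔ NormFrom a b) {a b g : Fˣ}
    (h : g ∈ normGroup a ⊔ normGroup b) : InProd S (φ a) (φ b) (φ g) := by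
  obtain ⟨u, hu, w, hw, rfl⟩ := Subgroup.mem_sup.1 h
  exact ⟨φ u, φ w, (h0 _ _).2 hu, (h0 _ _).2 hw, (map_mul _ _ _).symm⟩

theorem index_ne_zero [Finite S.G] (hk : ∀ a : Fˣ, φ a = 1 ↔ ∃ b : Fˣ, a = b ^ 2)
    {a : Fˣ} {H : Subgroup Fˣ} (h : normGroup a ≤ H) : H.index ≠ 0 := by
  have h1 : φ.ker.index ≠ 0 := by
    rw [Subgroup.index_ker]
    exact Nat.card_pos.ne'
  exact fun h2 => h1 (by
    have h3 := Subgroup.index_dvd_of_le ((ker_le hk a).trans h)
    rw [h2] at h3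
    exact Nat.eq_zero_of_zero_dvd h3)

theorem indexTwo_of_index [Finite S.G] (hs : Function.Surjective φ)
    (hk : ∀ a : Fˣ, φ a = 1 ↔ ∃ b : Fˣ, a = b ^ 2)
    (h0 : ∀ a b : Fˣ, S.q (φ a) (φ b) = S.zero ↔ NormFrom a b) {a b : Fˣ}
    (h : (normGroup a ⊔ normGroup b).index ≤ 2) : IndexTwo S (φ a) (φ b) := by
  have hne := index_ne_zero (S := S) (φ := φ) hk (le_sup_left : normGroup a ≤ normGroup a ⊔ normGroup b)
  intro g k
  obtain ⟨g, rfl⟩ := hs g
  obtain ⟨k, rfl⟩ := hs k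
  by_cases h1 : g ∈ normGroup a ⊔ normGroup b
  · exact Or.inl (inProd_of_mem h0 h1)
  by_cases h2 : k ∈ normGroup a ⊔ normGroup b
  · exact Or.inr (Or.inl (inProd_of_mem h0 h2))
  refine Or.inr (Or.inr ?_)
  rw [← map_mul]
  apply inProd_of_mem h0
  have h3 : (normGroup a ⊔ normGroup b).index = 2 := by
    have h4 : (normGroup a ⊔ normGroup b).index ≠ 1 := by
      intro h5
      rw [Subgroup.index_eq_one] at h5
      exact h1 (h5 ▸ Subgroup.mem_top _)
    omega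
  rw [Subgroup.mul_mem_iff_of_index_two h3]
  exact ⟨fun h => absurd h h1, fun h => absurd h h2⟩

theorem good_of_normGood [Finite S.G] (hs : Function.Surjective φ)
    (hk : ∀ a : Fˣ, φ a = 1 ↔ ∃ b : Fˣ, a = b ^ 2)
    (h0 : ∀ a b : Fˣ, S.q (φ a) (φ b) = S.zero ↔ NormFrom a b) {x y z : Fˣ}
    (h : NormGood x y z) : Good S (φ x) (φ y) (φ z) := by
  rcases h with ⟨h1, h2, h3, h4⟩ | ⟨h1, h2⟩ | h
  · refine Or.inl ⟨smallSlot_of_index hs hk h0 h1, smallSlot_of_index hs hk h0 h2,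
      smallSlot_of_index hs hk h0 h3, ?_⟩
    rw [← map_mul, ← map_mul]
    exact smallSlot_of_index hs hk h0 h4
  · refine Or.inr (Or.inl ⟨?_, ?_⟩)
    · rw [← map_mul]; exact indexTwo_of_index hs hk h0 h1
    · rw [← map_mul]; exact indexTwo_of_index hs hk h0 h2
  · refine Or.inr (Or.inr fun g => ?_)
    obtain ⟨g, rfl⟩ := hs g
    rw [← map_mul]
    exact inProd_of_mem h0 (h ▸ Subgroup.mem_top _)

theorem isSquare_iff (hk : ∀ a : Fˣ, φ a = 1 ↔ ∃ b : Fˣ, a = b ^ 2) (a : Fˣ) :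
    φ a = 1 ↔ IsSquare a := by
  rw [hk, isSquare_iff_exists_sq]

theorem dep_of_sq (hSq : IsQuat S) (hk : ∀ a : Fˣ, φ a = 1 ↔ ∃ b : Fˣ, a = b ^ 2) {x y z : Fˣ}
    (h : ¬ Dependent (φ x) (φ y) (φ z)) : ¬ SqDependent x y z := by
  intro hd
  apply h
  have key : ∀ a b : Fˣ, φ (a * b) = 1 → φ a = φ b := by
    intro a b hab
    rw [map_mul] at hab
    have := hSq.exp2 (φ b)
    rw [← this] at hab
    exact mul_right_cancel hab
  unfold SqDependent at hd
  rw [← isSquare_iff hk, ← isSquare_iff hk, ← isSquare_iff hk, ← isSquare_iff hk,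
    ← isSquare_iff hk, ← isSquare_iff hk, ← isSquare_iff hk] at hd
  rcases hd with h | h | h | h | h | h | h
  · exact Or.inl h
  · exact Or.inr (Or.inl h)
  · exact Or.inr (Or.inr (Or.inl h))
  · refine Or.inr (Or.inr (Or.inr (Or.inl ?_)))
    rw [← map_mul, ← map_mul]
    exact h
  · exact Or.inr (Or.inr (Or.inr (Or.inr (Or.inl (key _ _ h)))))
  · exact Or.inr (Or.inr (Or.inr (Or.inr (Or.inr (Or.inl (key _ _ h))))))
  · exact Or.inr (Or.inr (Or.inr (Or.inr (Or.inr (Or.inr (key _ _ h))))))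

theorem map_closure3 (x y z : Fˣ) : Subgroup.map φ (Subgroup.closure ({x, y, z} : Set Fˣ)) =
    Subgroup.closure ({φ x, φ y, φ z} : Set S.G) := by
  rw [MonoidHom.map_closure, Set.image_insert_eq, Set.image_insert_eq, Set.image_singleton]

theorem map_squares (hk : ∀ a : Fˣ, φ a = 1 ↔ ∃ b : Fˣ, a = b ^ 2) :
    Subgroup.map φ (squares F) = ⊥ := by
  rw [eq_bot_iff]
  rintro _ ⟨_, ⟨b, rfl⟩, rfl⟩
  rw [Subgroup.mem_bot]
  exact (hk _).2 ⟨b, rfl⟩

theorem count_of_atMost (hfin : Finite S.G)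
    (hq : ∀ a b c d : Fˣ, S.q (φ a) (φ b) = S.q (φ c) (φ d) ↔ QIso a b c d)
    (hs : Function.Surjective φ) {x y z : Fˣ}
    (h : AtMost27 (Subgroup.closure ({x, y, z} : Set Fˣ))) :
    (slotQ S (φ x) (φ y) (φ z)).ncard ≤ 27 := by
  classical
  by_contra hcon
  push Not at hcon
  have hfs := slotQ_finite S hfin (φ x) (φ y) (φ z)
  rw [Set.ncard_eq_toFinset_card _ hfs] at hcon
  have h1 : Fintype.card (Fin 28) ≤ Fintype.card {t // t ∈ hfs.toFinset} := by
    rw [Fintype.card_fin, Fintype.card_coe]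
    exact hcon
  obtain ⟨f⟩ := Function.Embedding.nonempty_of_card_le h1
  have h3 : ∀ i : Fin 28, ∃ ab : Fˣ × Fˣ, ab.1 ∈ Subgroup.closure ({x, y, z} : Set Fˣ) ∧
      S.q (φ ab.1) (φ ab.2) = (f i).1 := by
    intro i
    obtain ⟨w, hw, g, hg⟩ := hfs.mem_toFinset.1 (f i).2
    rw [← map_closure3] at hw
    obtain ⟨a, ha, rfl⟩ := hw
    obtain ⟨b, rfl⟩ := hs g
    exact ⟨(a, b), ha, hg⟩
  choose ab hab1 hab2 using h3
  obtain ⟨i, j, hij, he⟩ := h (fun i => (ab i).1) (fun i => (ab i).2) hab1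
  apply hij
  apply f.injective
  apply Subtype.ext
  rw [← hab2, ← hab2]
  exact (hq _ _ _ _).2 he

end

theorem field_good (h2 : (2 : F) ≠ 0) (hfin : FinSq F)
    (h : ∀ x y z : Fˣ, ¬ SqDependent x y z →
      AtMost27 (Subgroup.closure ({x, y, z} : Set Fˣ)) ∨ ∃ x' y' z' : Fˣ,
        Subgroup.closure ({x', y', z'} : Set Fˣ) ⊔ squares F =
          Subgroup.closure {x, y, z} ⊔ squares F ∧ NormGood x' y' z') :
    ∃ S : QData, Elem S ∧ IsStructureOf F S := by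
  obtain ⟨S, φ, β, hS, hSq, hSf, hs, hk, hmul, hiff, hq, h0⟩ := field_setup h2 hfin
  refine ⟨S, elem_of_good S hSq hSf B2_add_self β hmul hiff ?_, hS⟩
  intro x y z hd
  obtain ⟨x, rfl⟩ := hs x
  obtain ⟨y, rfl⟩ := hs y
  obtain ⟨z, rfl⟩ := hs z
  rcases h x y z (dep_of_sq hSq hk hd) with h | ⟨x', y', z', h, hg⟩
  · exact Or.inl (count_of_atMost hSf hq hs h)
  · refine Or.inr ⟨φ x', φ y', φ z', ?_, good_of_normGood hs hk h0 hg⟩
    have h1 := congrArg (Subgroup.map φ) h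
    rw [Subgroup.map_sup, Subgroup.map_sup, map_squares hk, sup_bot_eq, sup_bot_eq, map_closure3,
      map_closure3] at h1
    exact h1

theorem field_small (h2 : (2 : F) ≠ 0) (hfin : FinSq F)
    (h : ∀ x y z : Fˣ, ¬ SqDependent x y z → (normGroup x).index ≤ 4 ∨ (normGroup y).index ≤ 4 ∨
      (normGroup z).index ≤ 4) :
    ∃ S : QData, Elem S ∧ IsStructureOf F S := by
  obtain ⟨S, φ, β, hS, hSq, hSf, hs, hk, hmul, hiff, hq, h0⟩ := field_setup h2 hfin
  refine ⟨S, elem_of_small_slots S hSq hSf B2_add_self β hmul hiff ?_, hS⟩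
  intro x y z hd
  obtain ⟨x, rfl⟩ := hs x
  obtain ⟨y, rfl⟩ := hs y
  obtain ⟨z, rfl⟩ := hs z
  rcases h x y z (dep_of_sq hSq hk hd) with h | h | h
  · exact Or.inl (smallSlot_of_index hs hk h0 h)
  · exact Or.inr (Or.inl (smallSlot_of_index hs hk h0 h))
  · exact Or.inr (Or.inr (smallSlot_of_index hs hk h0 h))

end Pool.Agent.X21.ET
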