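import Pool.Agent.X21.ET.Fail
import Pool.Agent.TH188.ET.GrpVal

set_option autoImplicit false

/-!
Quaternionic structures with values in a group: local criteria for elementary type.
-/

namespace Pool.Agent.X21.ET

open Pool.Agent.H315R3.ETC Pool.Agent.W622.ETG Module Pool.Agent.TH188.ETP
open Pool.Agent.TH188.ET (exists_char exists_factor)
open Pool.Agent.TH188.ET8 (QD_eq)

universe v

/-- `g ∈ V(a) V(b)` -/
def InProd (S : QData) (a b g : S.G) : Prop :=
  ∃ u w : S.G, S.q a u = S.zero ∧ S.q b w = S.zero ∧ u * w = g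

/-- `V(a) V(b)` has index at most two in `G` -/
def IndexTwo (S : QData) (a b : S.G) : Prop :=
  ∀ g h : S.G, InProd S a b g ∨ InProd S a b h ∨ InProd S a b (g * h)

/-- `V(a)` has index at most four in `G` -/
def SmallSlot (S : QData) (a : S.G) : Prop :=
  Nat.card S.G ≤ 4 * Nat.card {b : S.G // S.q a b = S.zero}

/-- the local condition at `x, y, z` -/
def Good (S : QData) (x y z : S.G) : Prop :=
  (SmallSlot S x ∧ SmallSlot S y ∧ SmallSlot S z ∧ SmallSlot S (x * y * z)) ∨
    (IndexTwo S y (x * y) ∧ IndexTwo S z (x * z)) ∨ ∀ g : S.G, InProd S y (x * y) g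

/-- `x, y, z` generate a group with less than eight elements -/
def Dependent {G : Type*} [CommGroup G] (x y z : G) : Prop :=
  x = 1 ∨ y = 1 ∨ z = 1 ∨ x * y * z = 1 ∨ x = y ∨ x = z ∨ y = z

/-- reduction to families of forms -/
theorem elem_of_fam (S : QData) (hS : IsQuat S) (hfin : Finite S.G) {B : Type v}
    [AddCommGroup B] (hB : ∀ b : B, b + b = 0) (β : S.G → S.G → B)
    (hmul : ∀ a b c, β a (b * c) = β a b + β a c)
    (hiff : ∀ a b c d, β a b = β c d ↔ S.q a b = S.q c d)
    (key : ∀ [Module (ZMod 2) (Additive S.G)] (A : Fam (Additive S.G)), Linked A →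
      EFam (Additive.ofMul S.neg) A →
      (∀ ω ∈ A, ∀ a b : S.G, S.q a b = S.zero → ω (Additive.ofMul a) (Additive.ofMul b) = 0) →
      (∀ ω ∈ A, ∀ a b c d : S.G, S.q a b = S.q c d →
        ω (Additive.ofMul a) (Additive.ofMul b) = ω (Additive.ofMul c) (Additive.ofMul d)) →
      Hered A) : Elem S := by
  classical
  obtain ⟨hcore, hPL, hout, hconv⟩ := Pool.Agent.W622.ETG.all_parts
  let _ : Module (ZMod 2) (Additive S.G) := AddCommGroup.zmodModule (n := 2) (by
    intro x
    rw [two_smul]
    exact hS.exp2 x.toMul)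
  have hfV : Finite (Additive S.G) := hfin
  have q1 : ∀ a, S.q a 1 = S.zero := by
    intro a
    have := (hS.qs3 a 1 1).1 rfl
    rwa [mul_one] at this
  have b1 : ∀ a, β a 1 = 0 := by
    intro a
    have := hmul a 1 1
    rw [mul_one] at this
    exact left_eq_add.1 this
  have hz : ∀ a b, β a b = 0 ↔ S.q a b = S.zero := by
    intro a b
    rw [← b1 a, ← q1 a, hiff]
  have hsym : ∀ a b, β a b = β b a := fun a b => (hiff _ _ _ _).2 (hS.qs2 a b)
  have hmul' : ∀ a b c, β (a * b) c = β a c + β b c := by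
    intro a b c
    rw [hsym, hmul, hsym c, hsym c]
  -- the form of a character
  let frm (l : B →+ ZMod 2) : Frm (Additive S.G) :=
    AddMonoidHom.toZModLinearMap 2
      { toFun := fun a => AddMonoidHom.toZModLinearMap 2
          { toFun := fun b => l (β a.toMul b.toMul)
            map_zero' := by
              show l (β a.toMul 1) = 0
              rw [b1, map_zero]
            map_add' := fun b c => by
              show l (β a.toMul (b.toMul * c.toMul)) = _
              rw [hmul, map_add] }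
        map_zero' := by
          ext b
          show l (β 1 b.toMul) = 0
          rw [hsym, b1, map_zero]
        map_add' := fun a a' => by
          ext b
          show l (β (a.toMul * a'.toMul) b.toMul) = l _ + l _
          rw [hmul', map_add] }
  have hfrm : ∀ l a b, frm l a b = l (β a.toMul b.toMul) := fun _ _ _ => rfl
  let A : Fam (Additive S.G) :=
    { carrier := {ω | ∃ l : B →+ ZMod 2, ω = frm l}
      add_mem' := by
        rintro _ _ ⟨l, rfl⟩ ⟨l', rfl⟩
        exact ⟨l + l', by ext a b; rfl⟩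
      zero_mem' := ⟨0, by ext a b; rfl⟩
      smul_mem' := by
        rintro c _ ⟨l, rfl⟩
        refine ⟨c.val • l, ?_⟩
        ext a b
        rw [LinearMap.smul_apply, LinearMap.smul_apply, hfrm, hfrm, AddMonoidHom.nsmul_apply]
        simp }
  have hAm : ∀ ω, ω ∈ A ↔ ∃ l : B →+ ZMod 2, ω = frm l := fun _ => Iff.rfl
  set e : Additive S.G := Additive.ofMul S.neg with he
  have hEF : EFam e A := by
    rintro ω ⟨l, rfl⟩
    constructor
    · intro a b
      rw [hfrm, hfrm, hsym]
    · intro a
      have h1 : β a.toMul (S.neg * a.toMul) = 0 := (hz _ _).2 (hS.qs1 a.toMul)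
      rw [hmul] at h1
      have h2 : β a.toMul a.toMul = β a.toMul S.neg := by
        have h3 := hB (β a.toMul S.neg)
        rw [← h3] at h1
        exact add_left_cancel h1
      rw [hfrm, hfrm, h2]
      rfl
  -- linkage by gluing
  have hL : Linked A := by
    rintro ω ⟨l, rfl⟩ η ⟨m, rfl⟩ a c hac
    have hac' : ∀ b, l (β a.toMul b) = m (β c.toMul b) := by
      intro b
      have := LinearMap.congr_fun hac (Additive.ofMul b)
      rwa [hfrm, hfrm] at this
    let Φ : Additive S.G × Additive S.G →+ B :=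
      AddMonoidHom.mk' (fun z => β a.toMul z.1.toMul + β c.toMul z.2.toMul) (by
        intro z z'
        simp only [Prod.fst_add, Prod.snd_add, toMul_add, hmul]
        abel)
    let Λ : Additive S.G × Additive S.G →+ ZMod 2 :=
      AddMonoidHom.mk' (fun z => l (β a.toMul z.1.toMul) + m (β c.toMul z.2.toMul)) (by
        intro z z'
        simp only [Prod.fst_add, Prod.snd_add, toMul_add, hmul, map_add]
        abel)
    obtain ⟨k, hk⟩ := exists_factor hB Φ Λ (by
      rintro ⟨b, d⟩ h
      have h1 : β a.toMul b.toMul + β c.toMul d.toMul = 0 := h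
      have h2 : β a.toMul b.toMul = β c.toMul d.toMul := by
        have h3 := hB (β c.toMul d.toMul)
        rw [← h3] at h1
        exact add_right_cancel h1
      obtain ⟨x, hx1, hx2⟩ := hS.qs4 _ _ _ _ ((hiff _ _ _ _).1 h2)
      have e1 := (hiff _ _ _ _).2 hx1
      have e2 := (hiff _ _ _ _).2 hx2
      show l (β a.toMul b.toMul) + m (β c.toMul d.toMul) = 0
      rw [e1, e2, hac']
      exact CharTwo.add_self_eq_zero _)
    refine ⟨frm k, ⟨k, rfl⟩, ?_, ?_⟩
    · ext b
      rw [hfrm, hfrm]
      have := hk (b, 0)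
      have h1 : Φ (b, 0) = β a.toMul b.toMul := by
        show β a.toMul b.toMul + β c.toMul 1 = _
        rw [b1, add_zero]
      have h2 : Λ (b, 0) = l (β a.toMul b.toMul) := by
        show l (β a.toMul b.toMul) + m (β c.toMul 1) = _
        rw [b1, map_zero, add_zero]
      rw [h1, h2] at this
      exact this
    · ext b
      rw [hfrm, hfrm]
      have := hk (0, b)
      have h1 : Φ (0, b) = β c.toMul b.toMul := by
        show β a.toMul 1 + β c.toMul b.toMul = _
        rw [b1, zero_add]
      have h2 : Λ (0, b) = m (β c.toMul b.toMul) := by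
        show l (β a.toMul 1) + m (β c.toMul b.toMul) = _
        rw [b1, map_zero, zero_add]
      rw [h1, h2] at this
      rw [this]
      exact (hac' _).symm
  have hher : Hered A := key A hL hEF (by
    rintro ω ⟨l, rfl⟩ a b hab
    rw [hfrm]
    show l (β a b) = 0
    rw [(hz a b).2 hab, map_zero]) (by
    rintro ω ⟨l, rfl⟩ a b c d h
    rw [hfrm, hfrm]
    show l (β a b) = l (β c d)
    rw [(hiff _ _ _ _).2 h])
  have hElem : Elem (QD e A) := hout _ _ _ (hcore _ _ _ hEF hher)
  have heq : ∀ a b c d : Additive S.G, (∀ ω ∈ A, ω a b = ω c d) ↔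
      S.q a.toMul b.toMul = S.q c.toMul d.toMul := by
    intro a b c d
    constructor
    · intro h
      rw [← hiff]
      by_contra hne
      obtain ⟨l, -, hl⟩ := exists_char (⊥ : AddSubgroup B) (fun x => by
        rw [AddSubgroup.mem_bot]; exact hB x)
        (β a.toMul b.toMul - β c.toMul d.toMul) (by
          rw [AddSubgroup.mem_bot, sub_eq_zero]; exact hne)
      apply hl
      rw [map_sub, sub_eq_zero]
      exact h (frm l) ⟨l, rfl⟩
    · rintro h ω ⟨l, rfl⟩
      rw [hfrm, hfrm]
      congr 1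
      exact (hiff _ _ _ _).2 h
  refine Elem.iso _ _ hElem ⟨MulEquiv.multiplicativeAdditive S.G, rfl, ?_⟩
  intro a b c d
  rw [QD_eq]
  exact heq a.toAdd b.toAdd c.toAdd d.toAdd

section
variable {S : QData} [Module (ZMod 2) (Additive S.G)]

theorem toMul_span3 (x y z : S.G) (v : Additive S.G) :
    v ∈ Submodule.span (ZMod 2) {Additive.ofMul x, Additive.ofMul y, Additive.ofMul z} ↔
      v.toMul ∈ Subgroup.closure ({x, y, z} : Set S.G) := by
  constructor
  · intro h
    obtain ⟨a, b, c, rfl⟩ := mem_span3.1 h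
    have hx : ∀ (r : ZMod 2) (g : S.G), g ∈ Subgroup.closure ({x, y, z} : Set S.G) →
        (r • Additive.ofMul g).toMul ∈ Subgroup.closure ({x, y, z} : Set S.G) := by
      intro r g hg
      rcases z01 r with rfl | rfl
      · rw [zero_smul]; exact one_mem _
      · rw [one_smul]; exact hg
    exact mul_mem (mul_mem (hx _ _ (Subgroup.subset_closure (by simp)))
      (hx _ _ (Subgroup.subset_closure (by simp)))) (hx _ _ (Subgroup.subset_closure (by simp)))
  · intro h
    let K : Subgroup S.G :=
      { carrier := {g | Additive.ofMul g ∈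
          Submodule.span (ZMod 2) {Additive.ofMul x, Additive.ofMul y, Additive.ofMul z}}
        mul_mem' := fun {a b} ha hb => by
          have h1 : (Additive.ofMul a + Additive.ofMul b) ∈
            Submodule.span (ZMod 2) {Additive.ofMul x, Additive.ofMul y, Additive.ofMul z} :=
            Submodule.add_mem _ ha hb
          exact h1
        one_mem' := by
          have h1 : (0 : Additive S.G) ∈
            Submodule.span (ZMod 2) {Additive.ofMul x, Additive.ofMul y, Additive.ofMul z} :=
            Submodule.zero_mem _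
          exact h1
        inv_mem' := fun {a} ha => by
          have h1 : -(Additive.ofMul a) ∈
            Submodule.span (ZMod 2) {Additive.ofMul x, Additive.ofMul y, Additive.ofMul z} :=
            Submodule.neg_mem _ ha
          exact h1 }
    have hK : Subgroup.closure ({x, y, z} : Set S.G) ≤ K := by
      rw [Subgroup.closure_le]
      have h1 : ∀ v ∈ ({Additive.ofMul x, Additive.ofMul y, Additive.ofMul z} : Set (Additive S.G)),
          v ∈ Submodule.span (ZMod 2) {Additive.ofMul x, Additive.ofMul y, Additive.ofMul z} :=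
        fun v hv => Submodule.subset_span hv
      rintro g (hg | hg | hg)
      · rw [hg]; exact h1 (Additive.ofMul x) (by simp)
      · rw [hg]; exact h1 (Additive.ofMul y) (by simp)
      · rw [hg]; exact h1 (Additive.ofMul z) (by simp)
    exact hK h

theorem span_eq_of_closure {x y z x' y' z' : S.G}
    (h : Subgroup.closure ({x', y', z'} : Set S.G) = Subgroup.closure {x, y, z}) :
    Submodule.span (ZMod 2) {Additive.ofMul x', Additive.ofMul y', Additive.ofMul z'} =
      Submodule.span (ZMod 2) {Additive.ofMul x, Additive.ofMul y, Additive.ofMul z} := by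
  ext v
  rw [toMul_span3, toMul_span3, h]

/-- `ω(p, ·)` as a functional killing `V(p)` -/
theorem R2_of_small [Finite S.G] (hS : IsQuat S) {A : Fam (Additive S.G)}
    (hA0 : ∀ ω ∈ A, ∀ a b : S.G, S.q a b = S.zero →
      ω (Additive.ofMul a) (Additive.ofMul b) = 0) {p : S.G} (h : SmallSlot S p) :
    R2 A (Additive.ofMul p) := by
  have : Finite (Additive S.G) := ‹Finite S.G›
  by_contra hcon
  unfold R2 at hcon
  push Not at hcon
  obtain ⟨ω₁, m1, ω₂, m2, ω₃, m3, n1, n2, n3, n4, n5, n6, n7⟩ := hcon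
  set p' : Additive S.G := Additive.ofMul p with hp'
  let K : Submodule (ZMod 2) (Additive S.G) :=
    { carrier := {b | ∀ ω ∈ A, ω p' b = 0}
      add_mem' := fun {b c} hb hc ω hω => by rw [map_add, hb ω hω, hc ω hω, add_zero]
      zero_mem' := fun ω _ => map_zero _
      smul_mem' := fun r b hb ω hω => by rw [map_smul, hb ω hω, smul_zero] }
  have h1 := card_mul_le (M := ZMod 2 × ZMod 2 × ZMod 2) (⊤ : Submodule (ZMod 2) (Additive S.G)) K
    inferInstance ((ω₁ p').prod ((ω₂ p').prod (ω₃ p'))) (by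
      intro t ht
      show (ω₁ p' t, ω₂ p' t, ω₃ p' t) = 0
      rw [ht _ m1, ht _ m2, ht _ m3]; rfl) (by
      rintro ⟨u, v, w⟩
      obtain ⟨b, hb1, hb2, hb3⟩ := surj3 n1 n2 n3 n4 n5 n6 n7 u v w
      exact ⟨b, trivial, Prod.ext hb1 (Prod.ext hb2 hb3)⟩)
  rw [Nat.card_prod, Nat.card_prod, Nat.card_zmod, top_inf_eq] at h1
  have h2 : Nat.card {b : S.G // S.q p b = S.zero} ≤ Nat.card K :=
    Nat.card_le_card_of_injective
      (fun b : {b : S.G // S.q p b = S.zero} => (⟨Additive.ofMul b.1, fun ω hω =>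
        hA0 ω hω _ _ b.2⟩ : K)) (by
      rintro ⟨b, hb⟩ ⟨c, hc⟩ h
      exact Subtype.ext (congrArg (fun t : K => t.1.toMul) h))
  have h3 : Nat.card (⊤ : Submodule (ZMod 2) (Additive S.G)) = Nat.card S.G :=
    Nat.card_congr Submodule.topEquiv.toEquiv
  rw [h3] at h1
  have h4 : Nat.card S.G ≤ 4 * Nat.card {b : S.G // S.q p b = S.zero} := h
  have h5 : 0 < Nat.card {b : S.G // S.q p b = S.zero} := by
    have : Nonempty {b : S.G // S.q p b = S.zero} := ⟨⟨1, by
      have := (hS.qs3 p 1 1).1 rfl
      rwa [mul_one] at this⟩⟩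
    exact Nat.card_pos
  omega

theorem kill_prod {A : Fam (Additive S.G)}
    (hA0 : ∀ ω ∈ A, ∀ a b : S.G, S.q a b = S.zero →
      ω (Additive.ofMul a) (Additive.ofMul b) = 0) {p a g : S.G} (h : InProd S a (p * a) g)
    {ω : Frm (Additive S.G)} (hω : ω ∈ A) (hp : ω (Additive.ofMul p) = 0) :
    ω (Additive.ofMul a) (Additive.ofMul g) = 0 := by
  obtain ⟨u, w, h1, h2, rfl⟩ := h
  have h3 := hA0 ω hω _ _ h1
  have h4 := hA0 ω hω _ _ h2
  have h5 : ω (Additive.ofMul (p * a)) = ω (Additive.ofMul a) := by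
    rw [ofMul_mul, map_add, hp, zero_add]
  rw [h5] at h4
  rw [ofMul_mul, map_add, h3, h4, add_zero]

theorem I2_of_index {A : Fam (Additive S.G)}
    (hA0 : ∀ ω ∈ A, ∀ a b : S.G, S.q a b = S.zero →
      ω (Additive.ofMul a) (Additive.ofMul b) = 0) {p a : S.G} (h : IndexTwo S a (p * a)) :
    I2 A (Additive.ofMul p) (Additive.ofMul a) := by
  intro ω₁ m1 ω₂ m2 k1 k2
  by_contra hcon
  push Not at hcon
  obtain ⟨n1, n2, n3⟩ := hcon
  obtain ⟨b, hb1, hb2⟩ := surj2 n1 n2 n3 1 0
  obtain ⟨c, hc1, hc2⟩ := surj2 n1 n2 n3 0 1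
  rcases h b.toMul c.toMul with h1 | h1 | h1
  · have := kill_prod hA0 h1 m1 k1
    exact one_ne_zero (hb1.symm.trans this)
  · have := kill_prod hA0 h1 m2 k2
    exact one_ne_zero (hc2.symm.trans this)
  · have h2 : ω₁ (Additive.ofMul a) (b + c) = 0 := kill_prod hA0 h1 m1 k1
    rw [map_add, hb1, hc1, add_zero] at h2
    exact one_ne_zero h2

theorem I1_of_full {A : Fam (Additive S.G)}
    (hA0 : ∀ ω ∈ A, ∀ a b : S.G, S.q a b = S.zero →
      ω (Additive.ofMul a) (Additive.ofMul b) = 0) {p a : S.G} (h : ∀ g, InProd S a (p * a) g) :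
    I1 A (Additive.ofMul p) (Additive.ofMul a) := by
  intro ω m k
  ext b
  exact kill_prod hA0 (h b.toMul) m k

theorem Crit_of_good [Finite S.G] (hS : IsQuat S) {A : Fam (Additive S.G)}
    (hA0 : ∀ ω ∈ A, ∀ a b : S.G, S.q a b = S.zero →
      ω (Additive.ofMul a) (Additive.ofMul b) = 0) {x y z : S.G} (h : Good S x y z) :
    Crit A (Additive.ofMul x) (Additive.ofMul y) (Additive.ofMul z) := by
  rcases h with ⟨h1, h2, h3, h4⟩ | ⟨h1, h2⟩ | h
  · exact Or.inl ⟨R2_of_small hS hA0 h1, R2_of_small hS hA0 h2, R2_of_small hS hA0 h3,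
      R2_of_small hS hA0 h4⟩
  · exact Or.inr (Or.inl ⟨I2_of_index hA0 h1, I2_of_index hA0 h2⟩)
  · exact Or.inr (Or.inr (I1_of_full hA0 h))

end

/-- the quaternions with a slot in the subgroup generated by `x, y, z` -/
def slotQ (S : QData) (x y z : S.G) : Set S.Q :=
  {t | ∃ w ∈ Subgroup.closure ({x, y, z} : Set S.G), ∃ g, S.q w g = t}

theorem slotQ_finite (S : QData) (hfin : Finite S.G) (x y z : S.G) : (slotQ S x y z).Finite := by
  refine (Set.finite_range (fun ab : S.G × S.G => S.q ab.1 ab.2)).subset ?_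
  rintro t ⟨w, -, g, h⟩
  exact ⟨(w, g), h⟩

theorem QW_mono {V : Type} [AddCommGroup V] [Module (ZMod 2) V] [Finite V] {A B : Fam V}
    (h : B ≤ A) (x y z : V) : (QW B x y z).ncard ≤ (QW A x y z).ncard := by
  have h1 : QW B x y z ⊆ (fun t : A → ZMod 2 => fun ω : B => t ⟨ω.1, h ω.2⟩) '' QW A x y z := by
    rintro _ ⟨p, hp, g, rfl⟩
    exact ⟨_, ⟨p, hp, g, rfl⟩, rfl⟩
  have hf : (QW A x y z).Finite := (qs_finite A).subset (QW_sub A x y z)
  exact (Set.ncard_le_ncard h1 (hf.image _)).trans (Set.ncard_image_le hf)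

/-- the quaternions of the family of forms -/
theorem QW_le {S : QData} [Module (ZMod 2) (Additive S.G)] (hfin : Finite S.G)
    {A : Fam (Additive S.G)}
    (hA1 : ∀ ω ∈ A, ∀ a b c d : S.G, S.q a b = S.q c d →
        ω (Additive.ofMul a) (Additive.ofMul b) = ω (Additive.ofMul c) (Additive.ofMul d))
    (x y z : S.G) :
    (QW A (Additive.ofMul x) (Additive.ofMul y) (Additive.ofMul z)).ncard ≤
      (slotQ S x y z).ncard := by
  classical
  let F : S.Q → (A → ZMod 2) := fun t =>
    if ht : ∃ ab : S.G × S.G, S.q ab.1 ab.2 = t then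
      fun ω => ω.1 (Additive.ofMul ht.choose.1) (Additive.ofMul ht.choose.2) else 0
  have hF : ∀ a b : S.G, F (S.q a b) = fun ω : A => ω.1 (Additive.ofMul a) (Additive.ofMul b) := by
    intro a b
    have ht : ∃ ab : S.G × S.G, S.q ab.1 ab.2 = S.q a b := ⟨(a, b), rfl⟩
    show (if ht : _ then _ else _) = _
    rw [dif_pos ht]
    funext ω
    exact hA1 ω.1 ω.2 _ _ _ _ ht.choose_spec
  have h1 : QW A (Additive.ofMul x) (Additive.ofMul y) (Additive.ofMul z) ⊆
      F '' slotQ S x y z := by
    rintro _ ⟨p, -, g, rfl⟩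
    refine ⟨S.q (pt (Additive.ofMul x) (Additive.ofMul y) (Additive.ofMul z) p).toMul g.toMul,
      ⟨_, ?_, _, rfl⟩, hF _ _⟩
    have h2 : ∀ (B : Bool) (v : Additive S.G), v.toMul ∈ Subgroup.closure ({x, y, z} : Set S.G) →
        (if B = true then v else 0).toMul ∈ Subgroup.closure ({x, y, z} : Set S.G) := by
      intro B v hv
      cases B
      · exact one_mem _
      · exact hv
    unfold pt
    exact mul_mem (mul_mem (h2 _ _ (Subgroup.subset_closure (by simp)))
      (h2 _ _ (Subgroup.subset_closure (by simp)))) (h2 _ _ (Subgroup.subset_closure (by simp)))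
  have hfs := slotQ_finite S hfin x y z
  exact (Set.ncard_le_ncard h1 (hfs.image F)).trans (Set.ncard_image_le hfs)

/-- the local criterion -/
theorem elem_of_good (S : QData) (hS : IsQuat S) (hfin : Finite S.G) {B : Type v}
    [AddCommGroup B] (hB : ∀ b : B, b + b = 0) (β : S.G → S.G → B)
    (hmul : ∀ a b c, β a (b * c) = β a b + β a c)
    (hiff : ∀ a b c d, β a b = β c d ↔ S.q a b = S.q c d)
    (h : ∀ x y z : S.G, ¬ Dependent x y z → (slotQ S x y z).ncard ≤ 27 ∨ ∃ x' y' z' : S.G,
      Subgroup.closure ({x', y', z'} : Set S.G) = Subgroup.closure {x, y, z} ∧ Good S x' y' z') :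
    Elem S := by
  refine elem_of_fam S hS hfin hB β hmul hiff ?_
  intro _ A hL hEF hA0 hA1
  have hfV : Finite (Additive S.G) := hfin
  refine hered_of_planes hEF hL ?_
  intro C hCA hC x y z
  by_cases hd : Dep x y z
  · exact plane_dep hC hd
  rcases h x.toMul y.toMul z.toMul hd with hq | ⟨x', y', z', hs, hg⟩
  · by_contra hno
    have h1 := count_fail hC hno
    have h2 := QW_mono hCA x y z
    have h3 := QW_le hfin hA1 x.toMul y.toMul z.toMul
    have h4 : (QW A x y z).ncard ≤ (slotQ S x.toMul y.toMul z.toMul).ncard := h3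
    omega
  · have hs' := span_eq_of_closure hs
    exact plane_transfer hC hs' (plane_of_Crit hC
      (Crit_of_good hS (fun ω hω => hA0 ω (hCA hω)) hg))

/-- no three independent elements with value groups of index at least eight -/
theorem elem_of_small_slots (S : QData) (hS : IsQuat S) (hfin : Finite S.G) {B : Type v}
    [AddCommGroup B] (hB : ∀ b : B, b + b = 0) (β : S.G → S.G → B)
    (hmul : ∀ a b c, β a (b * c) = β a b + β a c)
    (hiff : ∀ a b c d, β a b = β c d ↔ S.q a b = S.q c d)
    (h : ∀ x y z : S.G, ¬ Dependent x y z → SmallSlot S x ∨ SmallSlot S y ∨ SmallSlot S z) :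
    Elem S := by
  refine elem_of_fam S hS hfin hB β hmul hiff ?_
  intro _ A hL hEF hA0 _
  have hfV : Finite (Additive S.G) := hfin
  refine hered_of_planes hEF hL ?_
  intro C hCA hC x y z
  by_cases hd : Dep x y z
  · exact plane_dep hC hd
  by_contra hno'
  have hno : ∀ x' y' z' : Additive S.G,
      Submodule.span (ZMod 2) {x', y', z'} = Submodule.span (ZMod 2) {x, y, z} →
      ¬ Crit C x' y' z' := fun x' y' z' hs hcr =>
    hno' (plane_transfer hC hs (plane_of_Crit hC hcr))
  obtain ⟨a, b, c, -, hdep, ha, hb, hc⟩ := exists_big3 hd hno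
  have hA0' : ∀ ω ∈ C, ∀ a b : S.G, S.q a b = S.zero →
      ω (Additive.ofMul a) (Additive.ofMul b) = 0 := fun ω hω => hA0 ω (hCA hω)
  rcases h a.toMul b.toMul c.toMul hdep with h | h | h
  · exact ha (R2_of_small hS hA0' h)
  · exact hb (R2_of_small hS hA0' h)
  · exact hc (R2_of_small hS hA0' h)

/-- at most 27 quaternions -/
theorem elem_of_count (S : QData) (hS : IsQuat S) (hfin : Finite S.G) {B : Type v}
    [AddCommGroup B] (hB : ∀ b : B, b + b = 0) (β : S.G → S.G → B)
    (hmul : ∀ a b c, β a (b * c) = β a b + β a c)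
    (hiff : ∀ a b c d, β a b = β c d ↔ S.q a b = S.q c d)
    (h : {t : S.Q | ∃ a b, S.q a b = t}.ncard ≤ 27) : Elem S := by
  refine elem_of_good S hS hfin hB β hmul hiff fun x y z _ => Or.inl (le_trans ?_ h)
  refine Set.ncard_le_ncard ?_ ?_
  · rintro t ⟨w, -, g, h⟩
    exact ⟨w, g, h⟩
  · refine (Set.finite_range (fun ab : S.G × S.G => S.q ab.1 ab.2)).subset ?_
    rintro t ⟨w, g, h⟩
    exact ⟨(w, g), h⟩

end Pool.Agent.X21.ET
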