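import Pool.Agent.TH188.ET.PlaneH

set_option autoImplicit false

/-!
Linked families of forms: linkage on one affine plane of `⟨x,y,z⟩` implies linkage on all affine
planes of `⟨x,y,z⟩`.
-/

namespace Pool.Agent.X21.ET

open Pool.Agent.W622.ETG Module Pool.Agent.TH188.ETP

section
variable {V : Type} [AddCommGroup V] [Module (ZMod 2) V] {e : V}

/-- the members killing `p` have at most two values at `a` -/
def I2 (A : Fam V) (p a : V) : Prop :=
  ∀ ω₁ ∈ A, ∀ ω₂ ∈ A, ω₁ p = 0 → ω₂ p = 0 → ω₁ a = 0 ∨ ω₂ a = 0 ∨ ω₁ a = ω₂ a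

/-- the members killing `p` kill `a` -/
def I1 (A : Fam V) (p a : V) : Prop := ∀ ω ∈ A, ω p = 0 → ω a = 0

/-- the three local criteria at the affine plane `x, y, z, x + y + z` -/
def Crit (A : Fam V) (x y z : V) : Prop :=
  (R2 A x ∧ R2 A y ∧ R2 A z ∧ R2 A (x + y + z)) ∨ (I2 A x y ∧ I2 A x z) ∨ I1 A x y

theorem plane_of_I {A : Fam V} (hL : Linked A) {p a c : V}
    (h : (I2 A p a ∧ I2 A p c) ∨ I1 A p a) : PlaneAt A p a c := by
  intro f fp fa fc fw
  obtain ⟨ω1, h1, p1, a1⟩ := pairL hL p a f fp fa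
  obtain ⟨ω2, h2, p2, c2⟩ := pairL hL p c f fp fc
  obtain ⟨ω3, h3, p3, w3⟩ := pairL hL p (p + a + c) f fp fw
  have ac3 : ω3 a = ω3 c := by
    rw [map_add, map_add, p3] at w3
    have h4 : f + (ω3 a + ω3 c) = f + 0 := by rw [add_zero, ← add_assoc]; exact w3
    exact Pool.Agent.W622.ETC.add_eq_zero'.1 (add_left_cancel h4)
  have m1 : ω1 + ω2 ∈ A := A.add_mem h1 h2
  have m2 : ω1 + ω3 ∈ A := A.add_mem h1 h3
  have m3 : ω2 + ω3 ∈ A := A.add_mem h2 h3
  have k1 : (ω1 + ω2) p = 0 := by rw [LinearMap.add_apply, p1, p2, vadd]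
  have k2 : (ω1 + ω3) p = 0 := by rw [LinearMap.add_apply, p1, p3, vadd]
  have e1a : (ω1 + ω2) a = f + ω2 a := by rw [LinearMap.add_apply, a1]
  have e1c : (ω1 + ω2) c = ω1 c + f := by rw [LinearMap.add_apply, c2]
  have e2a : (ω1 + ω3) a = f + ω3 a := by rw [LinearMap.add_apply, a1]
  have e2c : (ω1 + ω3) c = ω1 c + ω3 c := by rw [LinearMap.add_apply]
  by_cases z1 : (ω1 + ω2) a = 0
  · rw [e1a] at z1
    exact ⟨ω2, h2, p2, (Pool.Agent.W622.ETC.add_eq_zero'.1 z1).symm, c2⟩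
  by_cases z2 : (ω1 + ω2) c = 0
  · rw [e1c] at z2
    exact ⟨ω1, h1, p1, a1, Pool.Agent.W622.ETC.add_eq_zero'.1 z2⟩
  by_cases z3 : (ω1 + ω3) a = 0
  · rw [e2a] at z3
    have := (Pool.Agent.W622.ETC.add_eq_zero'.1 z3).symm
    exact ⟨ω3, h3, p3, this, ac3 ▸ this⟩
  rcases h with ⟨ha, hc⟩ | h
  · have q1 : (ω1 + ω2) a = (ω1 + ω3) a := by
      rcases ha _ m1 _ m2 k1 k2 with h | h | h
      · exact absurd h z1
      · exact absurd h z3
      · exact h
    rcases hc _ m1 _ m2 k1 k2 with h | h | h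
    · exact absurd h z2
    · -- `(ω1 + ω3) c = 0`
      rw [e2c] at h
      have h5 : ω1 c = ω3 c := Pool.Agent.W622.ETC.add_eq_zero'.1 h
      -- `ω2 a = ω3 a = ω3 c = ω1 c`
      have h6 : ω2 a = ω3 a := by
        rw [e1a, e2a] at q1
        exact add_left_cancel q1
      refine ⟨ω1 + (ω2 + ω3), A.add_mem h1 m3, ?_, ?_, ?_⟩
      · rw [LinearMap.add_apply, LinearMap.add_apply, p1, p2, p3, vadd, add_zero]
      · rw [LinearMap.add_apply, LinearMap.add_apply, a1, h6, vadd, add_zero]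
      · rw [LinearMap.add_apply, LinearMap.add_apply, c2, h5, add_comm f, ← add_assoc, vadd,
          zero_add]
    · rw [e1c, e2c] at h
      have h5 : f = ω3 c := add_left_cancel h
      exact ⟨ω3, h3, p3, ac3.trans h5.symm, h5.symm⟩
  · exact absurd (h _ m1 k1) z1

theorem plane_of_Crit [Finite V] {A : Fam V} (hL : Linked A) {x y z : V} (h : Crit A x y z) :
    PlaneAt A x y z := by
  rcases h with ⟨h1, h2, h3, h4⟩ | h
  · exact plane_of_R2 hL h1 h2 h3 h4
  · exact plane_of_I hL h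

theorem Crit.mono {A B : Fam V} (hBA : B ≤ A) {x y z : V} (h : Crit A x y z) : Crit B x y z := by
  have hR : ∀ p, R2 A p → R2 B p := fun p hp ω₁ h1 ω₂ h2 ω₃ h3 =>
    hp ω₁ (hBA h1) ω₂ (hBA h2) ω₃ (hBA h3)
  have hI : ∀ p a, I2 A p a → I2 B p a := fun p a hp ω₁ h1 ω₂ h2 =>
    hp ω₁ (hBA h1) ω₂ (hBA h2)
  rcases h with ⟨h1, h2, h3, h4⟩ | h | h
  · exact Or.inl ⟨hR _ h1, hR _ h2, hR _ h3, hR _ h4⟩
  · exact Or.inr (Or.inl ⟨hI _ _ h.1, hI _ _ h.2⟩)
  · exact Or.inr (Or.inr fun ω hω => h ω (hBA hω))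

/-- every map on `W` with values among the values of the members is induced by a member -/
def LGW (A : Fam V) (W : Submodule (ZMod 2) V) : Prop :=
  ∀ τ : W →ₗ[ZMod 2] Dl V, (∀ p : W, In A (p : V) (τ p)) → ∃ ω ∈ A, ∀ p : W, ω (p : V) = τ p

theorem two {A : Fam V} (hL : Linked A) {p q : V} {μ ν : Dl V} (h1 : In A p μ) (h2 : In A q ν)
    (h3 : In A (p + q) (μ + ν)) : ∃ ω ∈ A, ω p = μ ∧ ω q = ν := by
  obtain ⟨ω1, m1, rfl⟩ := h1
  have h4 : In A q (ν + ω1 q) := h2.add ⟨ω1, m1, rfl⟩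
  have h5 : In A (p + q) (ν + ω1 q) := by
    have := h3.add ⟨ω1, m1, rfl⟩
    rw [map_add] at this
    have e1 : ω1 p + ν + (ω1 p + ω1 q) = (ω1 p + ω1 p) + (ν + ω1 q) := by abel
    rwa [e1, vadd, zero_add] at this
  obtain ⟨ω2, m2, e2, e3⟩ := pairL hL q (p + q) _ h4 h5
  have e4 : ω2 p = 0 := by
    rw [map_add, e2] at e3
    exact left_eq_add.1 (by rw [add_comm]; exact e3.symm)
  refine ⟨ω1 + ω2, A.add_mem m1 m2, ?_, ?_⟩
  · rw [LinearMap.add_apply, e4, add_zero]
  · rw [LinearMap.add_apply, e2, add_comm ν, ← add_assoc, vadd, zero_add]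

theorem mem_span3 {x y z p : V} : p ∈ Submodule.span (ZMod 2) {x, y, z} ↔
    ∃ a b c : ZMod 2, a • x + b • y + c • z = p := Submodule.mem_span_triple

theorem lgw_of_plane {A : Fam V} (hL : Linked A) {x y z : V} (h : PlaneAt A x y z) :
    LGW A (Submodule.span (ZMod 2) {x, y, z}) := by
  intro τ hτ
  have hx : x ∈ Submodule.span (ZMod 2) {x, y, z} := Submodule.subset_span (by simp)
  have hy : y ∈ Submodule.span (ZMod 2) {x, y, z} := Submodule.subset_span (by simp)
  have hz : z ∈ Submodule.span (ZMod 2) {x, y, z} := Submodule.subset_span (by simp)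
  let X : Submodule.span (ZMod 2) {x, y, z} := ⟨x, hx⟩
  let Y : Submodule.span (ZMod 2) {x, y, z} := ⟨y, hy⟩
  let Z : Submodule.span (ZMod 2) {x, y, z} := ⟨z, hz⟩
  have hXY : In A (x + y) (τ X + τ Y) := by rw [← map_add]; exact hτ (X + Y)
  have hXZ : In A (x + z) (τ X + τ Z) := by rw [← map_add]; exact hτ (X + Z)
  have hYZ : In A ((x + y) + (x + z)) ((τ X + τ Y) + (τ X + τ Z)) := by
    have e1 : (x + y) + (x + z) = y + z := by
      have : (x + y) + (x + z) = (x + x) + (y + z) := by abel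
      rw [this, vadd, zero_add]
    have e2 : (τ X + τ Y) + (τ X + τ Z) = τ (Y + Z) := by
      have : (τ X + τ Y) + (τ X + τ Z) = (τ X + τ X) + (τ Y + τ Z) := by abel
      rw [this, vadd, zero_add, map_add]
    rw [e1, e2]
    exact hτ (Y + Z)
  obtain ⟨ω, mω, e1, e2⟩ := two hL hXY hXZ hYZ
  have hXYZ : In A (x + y + z) (τ X + τ Y + τ Z) := by
    rw [← map_add, ← map_add]; exact hτ (X + Y + Z)
  have f1 : τ Y + ω y = τ X + ω x := by
    rw [map_add] at e1
    have : (τ Y + ω y) + (τ X + ω x) = (ω x + ω y) + (τ X + τ Y) := by abel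
    rw [e1, vadd] at this
    exact Pool.Agent.W622.ETC.add_eq_zero'.1 this
  have f2 : τ Z + ω z = τ X + ω x := by
    rw [map_add] at e2
    have : (τ Z + ω z) + (τ X + ω x) = (ω x + ω z) + (τ X + τ Z) := by abel
    rw [e2, vadd] at this
    exact Pool.Agent.W622.ETC.add_eq_zero'.1 this
  obtain ⟨η, mη, g1, g2, g3⟩ := h (τ X + ω x) ((hτ X).add ⟨ω, mω, rfl⟩)
    (f1 ▸ (hτ Y).add ⟨ω, mω, rfl⟩) (f2 ▸ (hτ Z).add ⟨ω, mω, rfl⟩) (by
      have h5 := hXYZ.add ⟨ω, mω, rfl⟩
      rw [map_add, map_add] at h5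
      have e3 : τ X + τ Y + τ Z + (ω x + ω y + ω z) =
        (τ X + ω x) + ((τ Y + ω y) + (τ Z + ω z)) := by abel
      rw [e3, f1, f2, vadd, add_zero] at h5
      exact h5)
  refine ⟨ω + η, A.add_mem mω mη, ?_⟩
  rintro ⟨p, hp⟩
  obtain ⟨a, b, c, rfl⟩ := mem_span3.1 hp
  have e4 : (⟨a • x + b • y + c • z, hp⟩ : Submodule.span (ZMod 2) {x, y, z}) =
    a • X + b • Y + c • Z := rfl
  rw [e4, map_add, map_add, map_smul, map_smul, map_smul]
  have t1 : (ω + η) x = τ X := by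
    rw [LinearMap.add_apply, g1, add_comm (τ X), ← add_assoc, vadd, zero_add]
  have t2 : (ω + η) y = τ Y := by
    rw [LinearMap.add_apply, g2, ← f1, add_comm (τ Y), ← add_assoc, vadd, zero_add]
  have t3 : (ω + η) z = τ Z := by
    rw [LinearMap.add_apply, g3, ← f2, add_comm (τ Z), ← add_assoc, vadd, zero_add]
  show (ω + η) (a • x + b • y + c • z) = _
  rw [map_add, map_add, map_smul, map_smul, map_smul, t1, t2, t3]

theorem exists_one3 {x y z : V} (hx : x ≠ 0) (hy : y ≠ 0) (hz : z ≠ 0) (hw : x + y + z ≠ 0) :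
    ∃ l : Dl V, l x = 1 ∧ l y = 1 ∧ l z = 1 := by
  have hxK : x ∉ Submodule.span (ZMod 2) {x + y, x + z} := by
    intro h
    rcases span_pair_mem.1 h with h | h | h | h
    · exact hx h
    · exact hy (left_eq_add.1 h)
    · exact hz (left_eq_add.1 h)
    · have e1 : x + y + (x + z) = y + z := by
        have : x + y + (x + z) = (x + x) + (y + z) := by abel
        rw [this, vadd, zero_add]
      rw [e1] at h
      apply hw
      rw [add_assoc, ← h, vadd]
  obtain ⟨l, hl1, hl2⟩ := Submodule.exists_le_ker_of_notMem hxK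
  have h1 := z_ne hl1
  have h2 : l (x + y) = 0 := hl2 (Submodule.subset_span (by simp))
  have h3 : l (x + z) = 0 := hl2 (Submodule.subset_span (by simp))
  rw [map_add] at h2 h3
  exact ⟨l, h1, by rw [← Pool.Agent.W622.ETC.add_eq_zero'.1 h2, h1], by rw [← Pool.Agent.W622.ETC.add_eq_zero'.1 h3, h1]⟩

theorem plane_of_lgw {A : Fam V} {x y z : V}
    (h : LGW A (Submodule.span (ZMod 2) {x, y, z})) : PlaneAt A x y z := by
  intro f fx fy fz fw
  by_cases hf : f = 0
  · exact ⟨0, A.zero_mem, by simp [hf]⟩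
  have nz : ∀ p, In A p f → p ≠ 0 := by
    rintro p ⟨ω, -, rfl⟩ rfl
    exact hf (map_zero ω)
  obtain ⟨l, l1, l2, l3⟩ := exists_one3 (nz x fx) (nz y fy) (nz z fz) (nz _ fw)
  obtain ⟨ω, mω, hω⟩ := h ((l.smulRight f).comp (Submodule.subtype _)) (by
    rintro ⟨p, hp⟩
    obtain ⟨a, b, c, rfl⟩ := mem_span3.1 hp
    show In A (a • x + b • y + c • z) (l (a • x + b • y + c • z) • f)
    have h0 : ∀ p, In A p 0 := fun p => ⟨0, A.zero_mem, rfl⟩
    rw [map_add, map_add, map_smul, map_smul, map_smul, l1, l2, l3]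
    rcases z01 a with rfl | rfl <;> rcases z01 b with rfl | rfl <;> rcases z01 c with rfl | rfl
    all_goals simp only [zero_smul, one_smul, smul_eq_mul, zero_mul, one_mul, zero_add, add_zero]
    · exact h0 _
    · exact fz
    · exact fy
    · rw [zadd, zero_smul]; exact h0 _
    · exact fx
    · rw [zadd, zero_smul]; exact h0 _
    · rw [zadd, zero_smul]; exact h0 _
    · rw [zadd, zero_add, one_smul]; exact fw)
  refine ⟨ω, mω, ?_, ?_, ?_⟩
  · have := hω ⟨x, Submodule.subset_span (by simp)⟩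
    rw [this]
    show l x • f = f
    rw [l1, one_smul]
  · have := hω ⟨y, Submodule.subset_span (by simp)⟩
    rw [this]
    show l y • f = f
    rw [l2, one_smul]
  · have := hω ⟨z, Submodule.subset_span (by simp)⟩
    rw [this]
    show l z • f = f
    rw [l3, one_smul]

/-- linkage on one affine plane of `⟨x,y,z⟩` implies linkage on the others -/
theorem plane_transfer {A : Fam V} (hL : Linked A) {x y z x' y' z' : V}
    (hs : Submodule.span (ZMod 2) {x', y', z'} = Submodule.span (ZMod 2) {x, y, z})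
    (h : PlaneAt A x' y' z') : PlaneAt A x y z := by
  have := lgw_of_plane hL h
  rw [hs] at this
  exact plane_of_lgw this

/-- dependent triples -/
theorem plane_dep {A : Fam V} (hL : Linked A) {x y z : V}
    (h : x = 0 ∨ y = 0 ∨ z = 0 ∨ x + y + z = 0 ∨ x = y ∨ x = z ∨ y = z) : PlaneAt A x y z := by
  intro f fx fy fz fw
  by_cases hf : f = 0
  · exact ⟨0, A.zero_mem, by simp [hf]⟩
  have nz : ∀ p, In A p f → p ≠ 0 := by
    rintro p ⟨ω, -, rfl⟩ rfl
    exact hf (map_zero ω)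
  rcases h with h | h | h | h | h | h | h
  · exact absurd h (nz x fx)
  · exact absurd h (nz y fy)
  · exact absurd h (nz z fz)
  · exact absurd h (nz _ fw)
  · subst h
    obtain ⟨ω, mω, h1, h2⟩ := pairL hL x z f fx fz
    exact ⟨ω, mω, h1, h1, h2⟩
  · subst h
    obtain ⟨ω, mω, h1, h2⟩ := pairL hL x y f fx fy
    exact ⟨ω, mω, h1, h2, h1⟩
  · subst h
    obtain ⟨ω, mω, h1, h2⟩ := pairL hL x y f fx fy
    exact ⟨ω, mω, h1, h2, h2⟩

/-- hereditary linkage from linkage on affine planes for all subfamilies -/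
theorem linked_list' (l : List V) : ∀ A : Fam V, EFam e A → Linked A →
    (∀ B ≤ A, Linked B → ∀ x y z : V, PlaneAt B x y z) →
    Linked (l.foldl (fun B u => res B (ann u)) A) := by
  induction l with
  | nil => intro A _ h _; exact h
  | cons u l ih =>
    intro A hA hL hS
    exact ih _ (hA.res _) (linked_ann hA hL (hS A le_rfl hL) u)
      (fun B hB hBL => hS B (hB.trans (res_le A _)) hBL)

theorem hered_of_planes [Finite V] {A : Fam V} (hA : EFam e A) (hL : Linked A)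
    (hS : ∀ B ≤ A, Linked B → ∀ x y z : V, PlaneAt B x y z) : Hered A := by
  classical
  intro X
  have : Fintype V := Fintype.ofFinite V
  let l : List V := (Finset.univ.filter (fun b : V => ∀ g ∈ X, g b = 0)).toList
  have hl : ∀ b, b ∈ l ↔ ∀ g ∈ X, g b = 0 := by
    intro b
    simp [l]
  have h1 : l.foldl (fun B u => res B (ann u)) A = res A X := by
    ext ω
    rw [mem_list l A hA ω]
    constructor
    · rintro ⟨h1, h2⟩
      refine ⟨h1, fun y => mem_of_coann fun b hb => ?_⟩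
      rw [(hA ω h1).symm, h2 b ((hl b).2 hb)]
      rfl
    · rintro ⟨h1, h2⟩
      refine ⟨h1, fun u hu => ?_⟩
      ext y
      rw [(hA ω h1).symm]
      exact (hl u).1 hu _ (h2 y)
  rw [← h1]
  exact linked_list' l A hA hL hS

end

end Pool.Agent.X21.ET
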